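import Pool.Agent.Helper10K9.DF.Graph

/-!
# MP_d8cc50_co: a graph with at least `3 * 2 ^ ⌊n²/4⌋` orientations without `E0`
-/

set_option autoImplicit false

namespace Pool.Agent.Helper10K9.DF

open SimpleGraph Finset

/-- The tournament on four vertices with the six given bits. -/
def T (b : Fin 6 → Bool) (i j : Fin 4) : Bool :=
  match i, j with
  | 0, 2 => b 0
  | 2, 0 => !b 0
  | 1, 3 => b 1
  | 3, 1 => !b 1
  | 0, 1 => b 2
  | 1, 0 => !b 2
  | 0, 3 => b 3
  | 3, 0 => !b 3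
  | 2, 1 => b 4
  | 1, 2 => !b 4
  | 2, 3 => b 5
  | 3, 2 => !b 5
  | _, _ => false

/-- no source and sink of different parity -/
def good (b : Fin 6 → Bool) : Bool :=
  decide (∀ p q : Fin 4, p.val % 2 ≠ q.val % 2 →
    ¬ ((∀ r, r ≠ p → T b p r = true) ∧ (∀ r, r ≠ q → T b r q = true)))

theorem good_card : (univ.filter (fun b : Fin 6 → Bool => good b = true)).card = 48 := by
  decide +kernel

theorem T_self (b : Fin 6 → Bool) (i : Fin 4) : T b i i = false := by
  fin_cases i <;> rfl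

theorem T_ne (b : Fin 6 → Bool) {i j : Fin 4} (h : i ≠ j) : T b i j = !T b j i := by
  fin_cases i <;> fin_cases j <;> first | exact absurd rfl h | (simp [T])

theorem T_inj {b b' : Fin 6 → Bool} (h : ∀ i j, T b i j = T b' i j) : b = b' := by
  funext k
  fin_cases k
  · exact h 0 2
  · exact h 1 3
  · exact h 0 1
  · exact h 0 3
  · exact h 2 1
  · exact h 2 3

/-- The graph: complete bipartite between even and odd vertices, plus the edges `02` and `13`. -/
def G1 (n : ℕ) : SimpleGraph (Fin n) where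
  Adj u v := (u.val < 4 ∧ v.val < 4 ∧ u ≠ v) ∨
    (¬ (u.val < 4 ∧ v.val < 4) ∧ u.val % 2 ≠ v.val % 2)
  symm := ⟨by
    rintro u v (⟨h1, h2, h3⟩ | ⟨h1, h2⟩)
    · exact Or.inl ⟨h2, h1, h3.symm⟩
    · exact Or.inr ⟨fun h => h1 ⟨h.2, h.1⟩, h2.symm⟩⟩
  loopless := ⟨by
    rintro u (⟨h1, h2, h3⟩ | ⟨h1, h2⟩)
    · exact h3 rfl
    · exact h2 rfl⟩

/-- The remaining pairs (even, odd). -/
abbrev PP (n : ℕ) : Type :=
  {x : Fin n × Fin n // x.1.val % 2 = 0 ∧ x.2.val % 2 = 1 ∧ ¬ (x.1.val < 4 ∧ x.2.val < 4)}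

/-- The orientation given by the bits. -/
def Dbc {n : ℕ} (b : Fin 6 → Bool) (c : PP n → Bool) (u v : Fin n) : Prop :=
  (∃ h : u.val < 4 ∧ v.val < 4, T b ⟨u.val, h.1⟩ ⟨v.val, h.2⟩ = true) ∨
  (∃ h : u.val % 2 = 0 ∧ v.val % 2 = 1 ∧ ¬ (u.val < 4 ∧ v.val < 4), c ⟨(u, v), h⟩ = true) ∨
  (∃ h : v.val % 2 = 0 ∧ u.val % 2 = 1 ∧ ¬ (v.val < 4 ∧ u.val < 4), c ⟨(v, u), h⟩ = false)

theorem Dbc_small {n : ℕ} (b : Fin 6 → Bool) (c : PP n → Bool) {u v : Fin n}
    (h : u.val < 4 ∧ v.val < 4) : Dbc b c u v ↔ T b ⟨u.val, h.1⟩ ⟨v.val, h.2⟩ = true := by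
  constructor
  · rintro (⟨_, h1⟩ | ⟨h1, -⟩ | ⟨h1, -⟩)
    · exact h1
    · exact absurd h h1.2.2
    · exact absurd ⟨h.2, h.1⟩ h1.2.2
  · intro h1
    exact Or.inl ⟨h, h1⟩

theorem Dbc_eo {n : ℕ} (b : Fin 6 → Bool) (c : PP n → Bool) {u v : Fin n}
    (h : u.val % 2 = 0 ∧ v.val % 2 = 1 ∧ ¬ (u.val < 4 ∧ v.val < 4)) :
    Dbc b c u v ↔ c ⟨(u, v), h⟩ = true := by
  constructor
  · rintro (⟨h1, -⟩ | ⟨_, h1⟩ | ⟨h1, -⟩)
    · exact absurd h1 h.2.2
    · exact h1
    · omega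
  · intro h1
    exact Or.inr (Or.inl ⟨h, h1⟩)

theorem Dbc_oe {n : ℕ} (b : Fin 6 → Bool) (c : PP n → Bool) {u v : Fin n}
    (h : v.val % 2 = 0 ∧ u.val % 2 = 1 ∧ ¬ (v.val < 4 ∧ u.val < 4)) :
    Dbc b c u v ↔ c ⟨(v, u), h⟩ = false := by
  constructor
  · rintro (⟨h1, -⟩ | ⟨h1, -⟩ | ⟨_, h1⟩)
    · exact absurd ⟨h1.2, h1.1⟩ h.2.2
    · omega
    · exact h1
  · intro h1
    exact Or.inr (Or.inr ⟨h, h1⟩)

theorem Dbc_adj {n : ℕ} (b : Fin 6 → Bool) (c : PP n → Bool) {u v : Fin n} (h : Dbc b c u v) :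
    (G1 n).Adj u v := by
  rcases h with ⟨h1, h2⟩ | ⟨h1, -⟩ | ⟨h1, -⟩
  · refine Or.inl ⟨h1.1, h1.2, ?_⟩
    rintro rfl
    rw [T_self] at h2
    exact Bool.noConfusion h2
  · exact Or.inr ⟨h1.2.2, by omega⟩
  · exact Or.inr ⟨by tauto, by omega⟩

theorem Dbc_orientation {n : ℕ} (b : Fin 6 → Bool) (c : PP n → Bool) :
    IsOrientation (G1 n) (Dbc b c) := by
  refine ⟨fun u v h => Dbc_adj b c h, fun u v h => ?_⟩
  rcases h with ⟨h1, h2, h3⟩ | ⟨h1, h2⟩
  · rw [Dbc_small b c ⟨h1, h2⟩, Dbc_small b c ⟨h2, h1⟩]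
    have hne : (⟨u.val, h1⟩ : Fin 4) ≠ ⟨v.val, h2⟩ := by
      intro h
      exact h3 (Fin.ext (by simpa using h))
    rw [T_ne b hne]
    cases T b ⟨v.val, h2⟩ ⟨u.val, h1⟩ <;> simp
  · by_cases hu : u.val % 2 = 0
    · have h3 : u.val % 2 = 0 ∧ v.val % 2 = 1 ∧ ¬ (u.val < 4 ∧ v.val < 4) := ⟨hu, by omega, h1⟩
      rw [Dbc_eo b c h3, Dbc_oe b c h3]
      cases c ⟨(u, v), h3⟩ <;> simp
    · have h3 : v.val % 2 = 0 ∧ u.val % 2 = 1 ∧ ¬ (v.val < 4 ∧ u.val < 4) :=
        ⟨by omega, by omega, by tauto⟩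
      rw [Dbc_eo b c h3, Dbc_oe b c h3]
      cases c ⟨(v, u), h3⟩ <;> simp

theorem Dbc_inj {n : ℕ} (hn : 4 ≤ n) {b b' : Fin 6 → Bool} {c c' : PP n → Bool}
    (h : Dbc b c = Dbc b' c') : b = b' ∧ c = c' := by
  constructor
  · apply T_inj
    intro i j
    have h1 : Dbc b c ⟨i.val, by omega⟩ ⟨j.val, by omega⟩ ↔
        Dbc b' c' ⟨i.val, by omega⟩ ⟨j.val, by omega⟩ := by rw [h]
    rw [Dbc_small b c (u := ⟨i.val, by omega⟩) (v := ⟨j.val, by omega⟩) ⟨i.2, j.2⟩,
      Dbc_small b' c' (u := ⟨i.val, by omega⟩) (v := ⟨j.val, by omega⟩) ⟨i.2, j.2⟩] at h1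
    exact Bool.eq_iff_iff.2 h1
  · funext x
    obtain ⟨⟨u, v⟩, hx⟩ := x
    have h1 : Dbc b c u v ↔ Dbc b' c' u v := by rw [h]
    rw [Dbc_eo b c hx, Dbc_eo b' c' hx] at h1
    exact Bool.eq_iff_iff.2 h1

theorem four_cover : ∀ g0 g1 g2 g3 r : Fin 4, g0 ≠ g1 → g0 ≠ g2 → g0 ≠ g3 → g1 ≠ g2 → g1 ≠ g3 →
    g2 ≠ g3 → r = g0 ∨ r = g1 ∨ r = g2 ∨ r = g3 := by decide

theorem Dbc_free {n : ℕ} (b : Fin 6 → Bool) (c : PP n → Bool) (hb : good b = true) :
    ¬ Contains (Dbc b c) E0 := by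
  rintro ⟨f, hf, hE⟩
  -- monochromatic arcs lie in `{0, 1, 2, 3}`
  have hmono : ∀ a b, E0 a b → (decide ((f a).val % 2 = 0) = decide ((f b).val % 2 = 0)) →
      (f a).val < 4 ∧ (f b).val < 4 ∧ (f a).val ≠ (f b).val ∧
        (f a).val % 2 = (f b).val % 2 := by
    intro a b' hab hc
    have h1 := decide_eq_decide.1 hc
    have h2 := Dbc_adj _ _ (hE a b' hab)
    rcases h2 with ⟨h3, h4, h5⟩ | ⟨h3, h4⟩
    · refine ⟨h3, h4, fun h => h5 (Fin.ext h), by omega⟩
    · omega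
  -- the final contradiction
  have hfin : (f 0).val < 4 → (f 1).val < 4 → (f 2).val < 4 → (f 3).val < 4 →
      (f 0).val % 2 ≠ (f 1).val % 2 → False := by
    intro h0 h1 h2 h3 hpar
    have hg := of_decide_eq_true hb
    have hne : ∀ i j : Fin 11, i ≠ j → (f i).val ≠ (f j).val := fun i j hij h =>
      hij (hf (Fin.ext h))
    refine hg ⟨(f 0).val, h0⟩ ⟨(f 1).val, h1⟩ hpar ⟨?_, ?_⟩
    · intro r hr
      have hcov := four_cover ⟨(f 0).val, h0⟩ ⟨(f 1).val, h1⟩ ⟨(f 2).val, h2⟩ ⟨(f 3).val, h3⟩ r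
        (by simpa using hne 0 1 (by decide)) (by simpa using hne 0 2 (by decide))
        (by simpa using hne 0 3 (by decide)) (by simpa using hne 1 2 (by decide))
        (by simpa using hne 1 3 (by decide)) (by simpa using hne 2 3 (by decide))
      rcases hcov with e | e | e | e
      · exact absurd e hr
      · rw [e]; exact (Dbc_small b c ⟨h0, h1⟩).1 (hE 0 1 (by decide))
      · rw [e]; exact (Dbc_small b c ⟨h0, h2⟩).1 (hE 0 2 (by decide))
      · rw [e]; exact (Dbc_small b c ⟨h0, h3⟩).1 (hE 0 3 (by decide))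
    · intro r hr
      have hcov := four_cover ⟨(f 0).val, h0⟩ ⟨(f 1).val, h1⟩ ⟨(f 2).val, h2⟩ ⟨(f 3).val, h3⟩ r
        (by simpa using hne 0 1 (by decide)) (by simpa using hne 0 2 (by decide))
        (by simpa using hne 0 3 (by decide)) (by simpa using hne 1 2 (by decide))
        (by simpa using hne 1 3 (by decide)) (by simpa using hne 2 3 (by decide))
      rcases hcov with e | e | e | e
      · rw [e]; exact (Dbc_small b c ⟨h0, h1⟩).1 (hE 0 1 (by decide))
      · exact absurd e hr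
      · rw [e]; exact (Dbc_small b c ⟨h2, h1⟩).1 (hE 2 1 (by decide))
      · rw [e]; exact (Dbc_small b c ⟨h3, h1⟩).1 (hE 3 1 (by decide))
  rcases col_main (fun i => decide ((f i).val % 2 = 0)) with
    ⟨a, b1, a', b1', h1, h2, h3, h4, h5, h6⟩ | ⟨h1, h2, h3⟩ | ⟨h1, h2, h3⟩
  · have m1 := hmono a b1 h1 h3
    have m2 := hmono a' b1' h2 h4
    have h5' := decide_eq_decide.1 h5
    have hval : ((f a).val = (f a').val ∧ (f b1).val = (f b1').val) ∨
        ((f a).val = (f b1').val ∧ (f b1).val = (f a').val) := by omega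
    rcases hval with ⟨e1, e2⟩ | ⟨e1, e2⟩
    · have e1 := hf (Fin.ext e1)
      have e2 := hf (Fin.ext e2)
      exact h6 (by rw [e1, e2])
    · have e1 := hf (Fin.ext e1)
      have e2 := hf (Fin.ext e2)
      subst e1 e2
      exact E0_asymm _ _ h1 h2
  · have m1 := hmono 0 2 (by decide) h1
    have m2 := hmono 3 1 (by decide) h2.symm
    refine hfin m1.1 m2.2.1 m1.2.1 m2.1 (fun h => h3 ?_)
    show decide _ = decide _
    rw [h]
  · have m1 := hmono 0 3 (by decide) h1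
    have m2 := hmono 2 1 (by decide) h2.symm
    refine hfin m1.1 m2.2.1 m2.1 m1.2.1 (fun h => h3 ?_)
    show decide _ = decide _
    rw [h]

theorem count_even (n : ℕ) : ((range n).filter (fun v => v % 2 = 0)).card = (n + 1) / 2 := by
  induction n with
  | zero => simp
  | succ n ih =>
    rw [Finset.range_add_one, Finset.filter_insert]
    split_ifs with h
    · rw [Finset.card_insert_of_notMem (by simp), ih]
      omega
    · rw [ih]
      omega

theorem count_odd (n : ℕ) : ((range n).filter (fun v => v % 2 = 1)).card = n / 2 := by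
  induction n with
  | zero => simp
  | succ n ih =>
    rw [Finset.range_add_one, Finset.filter_insert]
    split_ifs with h
    · rw [Finset.card_insert_of_notMem (by simp), ih]
      omega
    · rw [ih]
      omega

theorem fin_filter_card (n : ℕ) (p : ℕ → Prop) [DecidablePred p] :
    ((univ : Finset (Fin n)).filter (fun v => p v.val)).card = ((range n).filter p).card := by
  apply Finset.card_bij (fun (v : Fin n) _ => v.val)
  · intro v hv
    simpa using hv
  · intro v _ w _ h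
    exact Fin.ext h
  · intro v hv
    rw [Finset.mem_filter, Finset.mem_range] at hv
    exact ⟨⟨v, hv.1⟩, by simpa using hv.2, rfl⟩

theorem PP_card (n : ℕ) : n ^ 2 / 4 ≤ Fintype.card (PP n) + 4 := by
  classical
  let E : Finset (Fin n) := univ.filter (fun v => v.val % 2 = 0)
  let O : Finset (Fin n) := univ.filter (fun v => v.val % 2 = 1)
  let E4 : Finset (Fin n) := univ.filter (fun v => v.val % 2 = 0 ∧ v.val < 4)
  let O4 : Finset (Fin n) := univ.filter (fun v => v.val % 2 = 1 ∧ v.val < 4)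
  have hE : E.card = (n + 1) / 2 := by
    rw [← count_even]; exact fin_filter_card n (fun v => v % 2 = 0)
  have hO : O.card = n / 2 := by
    rw [← count_odd]; exact fin_filter_card n (fun v => v % 2 = 1)
  have hE4 : E4.card ≤ 2 := by
    have h1 : E4.image (fun v => v.val) ⊆ {0, 2} := by
      intro x hx
      rw [Finset.mem_image] at hx
      obtain ⟨v, hv, rfl⟩ := hx
      have := (Finset.mem_filter.1 hv).2
      simp only [Finset.mem_insert, Finset.mem_singleton]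
      omega
    have h2 := Finset.card_le_card h1
    rw [Finset.card_image_of_injective _ Fin.val_injective] at h2
    exact h2.trans Finset.card_le_two
  have hO4 : O4.card ≤ 2 := by
    have h1 : O4.image (fun v => v.val) ⊆ {1, 3} := by
      intro x hx
      rw [Finset.mem_image] at hx
      obtain ⟨v, hv, rfl⟩ := hx
      have := (Finset.mem_filter.1 hv).2
      simp only [Finset.mem_insert, Finset.mem_singleton]
      omega
    have h2 := Finset.card_le_card h1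
    rw [Finset.card_image_of_injective _ Fin.val_injective] at h2
    exact h2.trans Finset.card_le_two
  have hsub : E ×ˢ O ⊆ (univ.filter (fun x : Fin n × Fin n =>
      x.1.val % 2 = 0 ∧ x.2.val % 2 = 1 ∧ ¬ (x.1.val < 4 ∧ x.2.val < 4))) ∪ E4 ×ˢ O4 := by
    intro x hx
    rw [Finset.mem_product] at hx
    have h1 := (Finset.mem_filter.1 hx.1).2
    have h2 := (Finset.mem_filter.1 hx.2).2
    by_cases h : x.1.val < 4 ∧ x.2.val < 4
    · rw [Finset.mem_union, Finset.mem_product]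
      right
      exact ⟨by simp [E4, h1, h.1], by simp [O4, h2, h.2]⟩
    · rw [Finset.mem_union]
      left
      rw [Finset.mem_filter]
      exact ⟨Finset.mem_univ _, h1, h2, h⟩
  have h1 := Finset.card_le_card hsub
  have h2 := h1.trans (Finset.card_union_le _ _)
  rw [Finset.card_product, Finset.card_product, hE, hO] at h2
  have h3 : E4.card * O4.card ≤ 2 * 2 := Nat.mul_le_mul hE4 hO4
  have h4 : Fintype.card (PP n) = (univ.filter (fun x : Fin n × Fin n =>
      x.1.val % 2 = 0 ∧ x.2.val % 2 = 1 ∧ ¬ (x.1.val < 4 ∧ x.2.val < 4))).card :=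
    Fintype.card_subtype _
  have h5 : n ^ 2 / 4 = (n + 1) / 2 * (n / 2) := by
    rcases Nat.even_or_odd' n with ⟨k, rfl | rfl⟩
    · have e1 : (2 * k + 1) / 2 = k := by omega
      have e2 : 2 * k / 2 = k := by omega
      have e3 : (2 * k) ^ 2 = 4 * (k * k) := by ring
      rw [e1, e2, e3]
      omega
    · have e1 : (2 * k + 1 + 1) / 2 = k + 1 := by omega
      have e2 : (2 * k + 1) / 2 = k := by omega
      have e3 : (2 * k + 1) ^ 2 = 4 * ((k + 1) * k) + 1 := by ring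
      rw [e1, e2, e3]
      omega
  rw [h4, h5]
  omega

theorem DG_lower {n : ℕ} (hn : 4 ≤ n) : 3 * 2 ^ (n ^ 2 / 4) ≤ DG (G1 n) E0 := by
  classical
  let F : {b : Fin 6 → Bool // good b = true} × (PP n → Bool) → (Fin n → Fin n → Prop) :=
    fun x => Dbc x.1.1 x.2
  have hF : Function.Injective F := by
    rintro ⟨⟨b, hb⟩, c⟩ ⟨⟨b', hb'⟩, c'⟩ h
    obtain ⟨h1, h2⟩ := Dbc_inj hn h
    simp only [Prod.mk.injEq, Subtype.mk.injEq]
    exact ⟨h1, h2⟩
  have hsub : Set.range F ⊆ {D | IsOrientation (G1 n) D ∧ ¬ Contains D E0} := by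
    rintro _ ⟨⟨⟨b, hb⟩, c⟩, rfl⟩
    exact ⟨Dbc_orientation b c, Dbc_free b c hb⟩
  have h1 : (Set.range F).ncard ≤ DG (G1 n) E0 :=
    Set.ncard_le_ncard hsub (Set.toFinite _)
  have h2 : (Set.range F).ncard = 48 * 2 ^ Fintype.card (PP n) := by
    rw [← Set.image_univ, Set.ncard_image_of_injective _ hF, Set.ncard_univ,
      Nat.card_eq_fintype_card, Fintype.card_prod, Fintype.card_subtype, good_card]
    simp
  rw [h2] at h1
  refine le_trans ?_ h1
  have h3 : 48 * 2 ^ Fintype.card (PP n) = 3 * 2 ^ (Fintype.card (PP n) + 4) := by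
    rw [pow_add]; ring
  rw [h3]
  exact Nat.mul_le_mul_left _ (Nat.pow_le_pow_right (by norm_num) (PP_card n))

theorem DN_lower {n : ℕ} (hn : 4 ≤ n) : 3 * 2 ^ (n ^ 2 / 4) ≤ DN n E0 :=
  (DG_lower hn).trans
    (le_ciSup (f := fun G : SimpleGraph (Fin n) => DG G E0) (Set.finite_range _).bddAbove (G1 n))

end Pool.Agent.Helper10K9.DF
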