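import Pool.Agent.Helper10K9.DF.Emb

/-!
# MP_d8cc50_co: an `H0`-free graph containing a `K_{23,23}` which sees almost half of all vertices
has at most `⌊n²/4⌋ + 1` edges
-/

set_option autoImplicit false

namespace Pool.Agent.Helper10K9.DF

open SimpleGraph Finset

variable {V : Type} [Fintype V] [DecidableEq V]

/-- the number of neighbours of `v` in `S` -/
def dg (G : SimpleGraph V) [DecidableRel G.Adj] (S : Finset V) (v : V) : ℕ :=
  (S.filter (fun u => G.Adj v u)).card

theorem dg_le (G : SimpleGraph V) [DecidableRel G.Adj] (S : Finset V) (v : V) :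
    dg G S v ≤ S.card := Finset.card_filter_le _ _

theorem dg_full (G : SimpleGraph V) [DecidableRel G.Adj] (S : Finset V) (v : V)
    (h : ∀ u ∈ S, G.Adj v u) : dg G S v = S.card := by
  unfold dg
  rw [Finset.filter_true_of_mem h]

theorem adj_of_full (G : SimpleGraph V) [DecidableRel G.Adj] (S : Finset V) (v : V)
    (h : S.card ≤ dg G S v) : ∀ u ∈ S, G.Adj v u := by
  have h1 : S.filter (fun u => G.Adj v u) = S :=
    Finset.eq_of_subset_of_card_le (Finset.filter_subset _ _) h
  intro u hu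
  rw [← h1, Finset.mem_filter] at hu
  exact hu.2

theorem nonadj_card (G : SimpleGraph V) [DecidableRel G.Adj] (S : Finset V) (v : V) (k : ℕ)
    (h : S.card ≤ dg G S v + k) : (S.filter (fun u => ¬ G.Adj v u)).card ≤ k := by
  have h1 := Finset.card_filter_add_card_filter_not (s := S) (fun u => G.Adj v u)
  unfold dg at h
  omega

/-- The situation: `A`, `B` are sets of 23 vertices, complete to each other. -/
structure Sit (G : SimpleGraph V) (A B : Finset V) : Prop where
  free : ¬ H0 ⊑ G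
  hA : A.card = 23
  hB : B.card = 23
  hAB : ∀ a ∈ A, ∀ b ∈ B, G.Adj a b

theorem Sit.symm {G : SimpleGraph V} {A B : Finset V} (h : Sit G A B) : Sit G B A :=
  ⟨h.free, h.hB, h.hA, fun b hb a ha => (h.hAB a ha b hb).symm⟩

variable {G : SimpleGraph V} [DecidableRel G.Adj] {A B : Finset V}

/-- Two distinct edges between vertices which see almost all of `B`. -/
theorem Sit.same (h : Sit G A B) {x y z w : V} (hx : 20 ≤ dg G B x) (hy : 20 ≤ dg G B y)
    (hz : 20 ≤ dg G B z) (hw : 20 ≤ dg G B w) (hxy : G.Adj x y) (hzw : G.Adj z w) :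
    s(x, y) = s(z, w) := by
  by_contra hne
  apply h.free
  let Y : Finset V := B.filter (fun u => G.Adj x u ∧ G.Adj y u ∧ G.Adj z u ∧ G.Adj w u)
  let X : Finset V := A \ {x, y, z, w}
  have hX : 11 ≤ X.card := by
    have h1 : A.card - ({x, y, z, w} : Finset V).card ≤ X.card := Finset.le_card_sdiff _ _
    have h2 : ({x, y, z, w} : Finset V).card ≤ 4 := Finset.card_le_four
    have := h.hA
    omega
  have hY : 11 ≤ Y.card := by
    have hsub : B ⊆ Y ∪ ((B.filter (fun u => ¬ G.Adj x u)) ∪ ((B.filter (fun u => ¬ G.Adj y u)) ∪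
        ((B.filter (fun u => ¬ G.Adj z u)) ∪ (B.filter (fun u => ¬ G.Adj w u))))) := by
      intro u hu
      simp only [Y, Finset.mem_union, Finset.mem_filter]
      tauto
    have h1 := Finset.card_le_card hsub
    have hB := h.hB
    have n1 := nonadj_card G B x 3 (by omega)
    have n2 := nonadj_card G B y 3 (by omega)
    have n3 := nonadj_card G B z 3 (by omega)
    have n4 := nonadj_card G B w 3 (by omega)
    have u1 := Finset.card_union_le Y ((B.filter (fun u => ¬ G.Adj x u)) ∪
      ((B.filter (fun u => ¬ G.Adj y u)) ∪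
        ((B.filter (fun u => ¬ G.Adj z u)) ∪ (B.filter (fun u => ¬ G.Adj w u)))))
    have u2 := Finset.card_union_le (B.filter (fun u => ¬ G.Adj x u))
      ((B.filter (fun u => ¬ G.Adj y u)) ∪
        ((B.filter (fun u => ¬ G.Adj z u)) ∪ (B.filter (fun u => ¬ G.Adj w u))))
    have u3 := Finset.card_union_le (B.filter (fun u => ¬ G.Adj y u))
        ((B.filter (fun u => ¬ G.Adj z u)) ∪ (B.filter (fun u => ¬ G.Adj w u)))
    have u4 := Finset.card_union_le (B.filter (fun u => ¬ G.Adj z u))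
      (B.filter (fun u => ¬ G.Adj w u))
    omega
  have hXY : ∀ x ∈ X, ∀ y ∈ Y, G.Adj x y := by
    intro a ha b hb
    exact h.hAB a (Finset.mem_sdiff.1 ha).1 b (Finset.mem_filter.1 hb).1
  have hYx : ∀ u ∈ Y, G.Adj x u := fun u hu => (Finset.mem_filter.1 hu).2.1
  have hYy : ∀ u ∈ Y, G.Adj y u := fun u hu => (Finset.mem_filter.1 hu).2.2.1
  have hYz : ∀ u ∈ Y, G.Adj z u := fun u hu => (Finset.mem_filter.1 hu).2.2.2.1
  have hYw : ∀ u ∈ Y, G.Adj w u := fun u hu => (Finset.mem_filter.1 hu).2.2.2.2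
  have xX : x ∉ X := by simp [X]
  have yX : y ∉ X := by simp [X]
  have zX : z ∉ X := by simp [X]
  have wX : w ∉ X := by simp [X]
  by_cases e1 : x = z
  · subst e1
    have hyw : y ≠ w := fun e => hne (by rw [e])
    exact star G X Y hX hY hXY x y w hxy hzw hyw hYx hYy hYw xX yX wX
  by_cases e2 : x = w
  · subst e2
    have hyz : y ≠ z := fun e => hne (by rw [e, Sym2.eq_swap])
    exact star G X Y hX hY hXY x y z hxy hzw.symm hyz hYx hYy hYz xX yX zX
  by_cases e3 : y = z
  · subst e3
    exact star G X Y hX hY hXY y x w hxy.symm hzw e2 hYy hYx hYw yX xX wX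
  by_cases e4 : y = w
  · subst e4
    exact star G X Y hX hY hXY y x z hxy.symm hzw.symm e1 hYy hYx hYz yX xX zX
  exact two G X Y hX hY hXY x y z w hxy hzw e1 e2 e3 e4 hYx hYy hYz hYw xX yX zX wX

/-- An edge between vertices which see almost all of `B` and an edge between vertices which see
almost all of `A`, with three of the four pairs adjacent. -/
theorem Sit.cross (h : Sit G A B) {x x' y y' : V} (hx : 20 ≤ dg G B x) (hx' : 20 ≤ dg G B x')
    (hy : 20 ≤ dg G A y) (hy' : 20 ≤ dg G A y') (hxx : G.Adj x x') (hyy : G.Adj y y')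
    (h1 : G.Adj x y) (h2 : G.Adj x y') (h3 : G.Adj x' y) (h4 : x' ≠ y') : False := by
  apply h.free
  let Y : Finset V := (B.filter (fun u => G.Adj x u ∧ G.Adj x' u)) \ {y, y'}
  let X : Finset V := (A.filter (fun u => G.Adj y u ∧ G.Adj y' u)) \ {x, x'}
  have aux : ∀ (S : Finset V) (a b c d : V), S.card = 23 → 20 ≤ dg G S a → 20 ≤ dg G S b →
      11 ≤ ((S.filter (fun u => G.Adj a u ∧ G.Adj b u)) \ {c, d}).card := by
    intro S a b c d hS ha hb
    have hsub : S ⊆ (S.filter (fun u => G.Adj a u ∧ G.Adj b u)) ∪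
        ((S.filter (fun u => ¬ G.Adj a u)) ∪ (S.filter (fun u => ¬ G.Adj b u))) := by
      intro u hu
      simp only [Finset.mem_union, Finset.mem_filter]
      tauto
    have h1 := Finset.card_le_card hsub
    have n1 := nonadj_card G S a 3 (by omega)
    have n2 := nonadj_card G S b 3 (by omega)
    have u1 := Finset.card_union_le (S.filter (fun u => G.Adj a u ∧ G.Adj b u))
      ((S.filter (fun u => ¬ G.Adj a u)) ∪ (S.filter (fun u => ¬ G.Adj b u)))
    have u2 := Finset.card_union_le (S.filter (fun u => ¬ G.Adj a u))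
      (S.filter (fun u => ¬ G.Adj b u))
    have h2 : (S.filter (fun u => G.Adj a u ∧ G.Adj b u)).card - ({c, d} : Finset V).card ≤ _ :=
      Finset.le_card_sdiff {c, d} (S.filter (fun u => G.Adj a u ∧ G.Adj b u))
    have h3 : ({c, d} : Finset V).card ≤ 2 := Finset.card_le_two
    omega
  have hX : 11 ≤ X.card := aux A y y' x x' h.hA hy hy'
  have hY : 11 ≤ Y.card := aux B x x' y y' h.hB hx hx'
  refine DF.cross G X Y hX hY ?_ x x' y y' hxx hyy h1 h2 h3 h4 ?_ ?_ ?_ ?_ ?_ ?_ ?_ ?_
  · intro a ha b hb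
    exact h.hAB a (Finset.mem_filter.1 (Finset.mem_sdiff.1 ha).1).1 b
      (Finset.mem_filter.1 (Finset.mem_sdiff.1 hb).1).1
  · exact fun u hu => (Finset.mem_filter.1 (Finset.mem_sdiff.1 hu).1).2.1
  · exact fun u hu => (Finset.mem_filter.1 (Finset.mem_sdiff.1 hu).1).2.2
  · exact fun u hu => (Finset.mem_filter.1 (Finset.mem_sdiff.1 hu).1).2.1
  · exact fun u hu => (Finset.mem_filter.1 (Finset.mem_sdiff.1 hu).1).2.2
  · simp [X]
  · simp [X]
  · simp [Y]
  · simp [Y]

/-- A vertex outside with two neighbours in `A` has at most 10 neighbours in `B`. -/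
theorem Sit.dich (h : Sit G A B) {v : V} (hvA : v ∉ A) : dg G A v ≤ 1 ∨ dg G B v ≤ 10 := by
  by_contra hcon
  push Not at hcon
  obtain ⟨h1, h2⟩ := hcon
  obtain ⟨a1, ha1, a2, ha2, hne⟩ := Finset.one_lt_card.1 h1
  rw [Finset.mem_filter] at ha1 ha2
  apply h.free
  have hX : 11 ≤ (A \ {a1, a2}).card := by
    have h1 : A.card - ({a1, a2} : Finset V).card ≤ (A \ {a1, a2}).card :=
      Finset.le_card_sdiff _ _
    have h2 : ({a1, a2} : Finset V).card ≤ 2 := Finset.card_le_two
    have := h.hA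
    omega
  refine star G (A \ {a1, a2}) (B.filter (fun u => G.Adj v u)) hX h2 ?_ v a1 a2 ha1.2 ha2.2 hne
    ?_ ?_ ?_ ?_ ?_ ?_
  · exact fun a ha b hb => h.hAB a (Finset.mem_sdiff.1 ha).1 b (Finset.mem_filter.1 hb).1
  · exact fun b hb => (Finset.mem_filter.1 hb).2
  · exact fun b hb => h.hAB a1 ha1.1 b (Finset.mem_filter.1 hb).1
  · exact fun b hb => h.hAB a2 ha2.1 b (Finset.mem_filter.1 hb).1
  · exact fun hv => hvA (Finset.mem_sdiff.1 hv).1
  · simp
  · simp

theorem Sit.disj (h : Sit G A B) {v : V} (hA : v ∈ A) : v ∉ B := fun hB => (h.hAB v hA v hB).ne rfl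

/-- Vertices of `A` see all of `B` and at most one vertex of `A`. -/
theorem Sit.inA (h : Sit G A B) {v : V} (hA : v ∈ A) : dg G B v = 23 ∧ dg G A v ≤ 1 := by
  have h1 : ∀ v ∈ A, dg G B v = 23 := fun v hv => (dg_full G B v (h.hAB v hv)).trans h.hB
  refine ⟨h1 v hA, ?_⟩
  by_contra hcon
  push Not at hcon
  obtain ⟨a1, ha1, a2, ha2, hne⟩ := Finset.one_lt_card.1 hcon
  rw [Finset.mem_filter] at ha1 ha2
  have hv := h1 v hA
  have h2 := h1 a1 ha1.1
  have h3 := h1 a2 ha2.1
  have := h.same (x := v) (y := a1) (z := v) (w := a2) (by omega) (by omega) (by omega) (by omega)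
    ha1.2 ha2.2
  rw [Sym2.congr_right] at this
  exact hne this

/-- At most one edge inside a class. -/
theorem inner_le (S : Finset V) (hS : ∀ x ∈ S, ∀ y ∈ S, ∀ z ∈ S, ∀ w ∈ S, G.Adj x y → G.Adj z w →
    s(x, y) = s(z, w)) : ∑ v ∈ S, dg G S v ≤ 2 := by
  have h1 : ∑ v ∈ S, dg G S v = ((S ×ˢ S).filter (fun p => G.Adj p.1 p.2)).card := by
    unfold dg
    rw [Finset.card_filter, Finset.sum_product]
    apply Finset.sum_congr rfl
    intro v _
    rw [Finset.card_filter]
  rw [h1]
  rcases ((S ×ˢ S).filter (fun p => G.Adj p.1 p.2)).eq_empty_or_nonempty with he | ⟨p, hp⟩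
  · rw [he]; simp
  · have hsub : (S ×ˢ S).filter (fun p => G.Adj p.1 p.2) ⊆ {(p.1, p.2), (p.2, p.1)} := by
      intro q hq
      rw [Finset.mem_filter, Finset.mem_product] at hp hq
      have := hS q.1 hq.1.1 q.2 hq.1.2 p.1 hp.1.1 p.2 hp.1.2 hq.2 hp.2
      rw [Sym2.eq_iff] at this
      rw [Finset.mem_insert, Finset.mem_singleton]
      rcases this with ⟨h1, h2⟩ | ⟨h1, h2⟩
      · left; exact Prod.ext h1 h2
      · right; exact Prod.ext h1 h2
    exact (Finset.card_le_card hsub).trans Finset.card_le_two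

/-- The main structural bound. -/
theorem Sit.main (h : Sit G A B)
    (hcount : 23 * (univ \ (A ∪ B)).card ≤
      ∑ v ∈ univ \ (A ∪ B), (dg G A v + dg G B v) + 1) :
    G.edgeFinset.card ≤ (Fintype.card V) ^ 2 / 4 + 1 := by
  set R : Finset V := univ \ (A ∪ B) with hR
  have hRA : ∀ v ∈ R, v ∉ A ∧ v ∉ B := by
    intro v hv
    rw [hR, Finset.mem_sdiff, Finset.mem_union] at hv
    tauto
  have hd : ∀ v ∈ R, (dg G A v ≤ 1 ∨ dg G B v ≤ 10) ∧ (dg G B v ≤ 1 ∨ dg G A v ≤ 10) :=
    fun v hv => ⟨h.dich (hRA v hv).1, h.symm.dich (hRA v hv).2⟩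
  have hA := h.hA
  have hB := h.hB
  have hle : ∀ v ∈ R, dg G A v + dg G B v ≤ 24 := by
    intro v hv
    have h1 := hd v hv
    have h2 := dg_le G A v
    have h3 := dg_le G B v
    omega
  -- at most one vertex with 24
  have hone : ∀ v ∈ R, ∀ w ∈ R, dg G A v + dg G B v = 24 → dg G A w + dg G B w = 24 → v = w := by
    -- a vertex with 24 neighbours: either full to `B` and one neighbour in `A`, or vice versa
    have hform : ∀ v ∈ R, dg G A v + dg G B v = 24 →
        (dg G B v = 23 ∧ ∃ a ∈ A, G.Adj v a) ∨ (dg G A v = 23 ∧ ∃ b ∈ B, G.Adj v b) := by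
      intro v hv h24
      have h1 := hd v hv
      have h2 := dg_le G A v
      have h3 := dg_le G B v
      by_cases hc : dg G B v = 23
      · left
        refine ⟨hc, ?_⟩
        have : 0 < dg G A v := by omega
        obtain ⟨a, ha⟩ := Finset.card_pos.1 this
        rw [Finset.mem_filter] at ha
        exact ⟨a, ha⟩
      · right
        have h4 : dg G A v = 23 := by omega
        refine ⟨h4, ?_⟩
        have : 0 < dg G B v := by omega
        obtain ⟨a, ha⟩ := Finset.card_pos.1 this
        rw [Finset.mem_filter] at ha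
        exact ⟨a, ha⟩
    -- both of the same kind
    have hsame : ∀ (A B : Finset V), Sit G A B → ∀ v w, v ∉ A → w ∉ A → dg G B v = 23 →
        dg G B w = 23 → (∃ a ∈ A, G.Adj v a) → (∃ a ∈ A, G.Adj w a) → v = w := by
      intro A B h v w hvA hwA hv hw ⟨a, ha, hva⟩ ⟨b, hb, hwb⟩
      have h1 := (h.inA ha).1
      have h2 := (h.inA hb).1
      have := h.same (x := v) (y := a) (z := w) (w := b) (by omega) (by omega) (by omega)
        (by omega) hva hwb
      rw [Sym2.eq_iff] at this
      rcases this with h3 | h3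
      · exact h3.1
      · exact absurd (h3.1 ▸ hb) hvA
    have hdiff : ∀ v w, v ∉ A → w ∉ B → dg G B v = 23 → dg G A w = 23 → (∃ a ∈ A, G.Adj v a) →
        (∃ b ∈ B, G.Adj w b) → v = w := by
      intro v w hvA hwB hv hw ⟨a, ha, hva⟩ ⟨b, hb, hwb⟩
      by_contra hne
      have h1 := (h.inA ha).1
      have h2 := (h.symm.inA hb).1
      have hvB := adj_of_full G B v (by omega)
      have hwA := adj_of_full G A w (by omega)
      exact h.cross (x := a) (x' := v) (y := b) (y' := w) (by omega) (by omega) (by omega)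
        (by omega) hva.symm hwb.symm (h.hAB a ha b hb) (hwA a ha).symm (hvB b hb) hne
    intro v hv w hw h1 h2
    rcases hform v hv h1 with ⟨e1, e2⟩ | ⟨e1, e2⟩ <;> rcases hform w hw h2 with ⟨e3, e4⟩ | ⟨e3, e4⟩
    · exact hsame A B h v w (hRA v hv).1 (hRA w hw).1 e1 e3 e2 e4
    · exact hdiff v w (hRA v hv).1 (hRA w hw).2 e1 e3 e2 e4
    · exact (hdiff w v (hRA w hw).1 (hRA v hv).2 e3 e1 e4 e2).symm
    · exact hsame B A h.symm v w (hRA v hv).2 (hRA w hw).2 e1 e3 e2 e4
  -- hence every vertex of `R` has at least 21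
  have hsumle : ∀ S ⊆ R, ∑ w ∈ S, (dg G A w + dg G B w) ≤ 23 * S.card + 1 := by
    intro S hS
    by_cases hex : ∃ w0 ∈ S, dg G A w0 + dg G B w0 = 24
    · obtain ⟨w0, hw0, h24⟩ := hex
      rw [← Finset.add_sum_erase _ _ hw0, h24]
      have h1 : ∑ w ∈ S.erase w0, (dg G A w + dg G B w) ≤ ∑ w ∈ S.erase w0, 23 := by
        apply Finset.sum_le_sum
        intro w hw
        rw [Finset.mem_erase] at hw
        have h2 := hle w (hS hw.2)
        have h3 : dg G A w + dg G B w ≠ 24 := fun e =>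
          hw.1 (hone w (hS hw.2) w0 (hS hw0) e h24)
        omega
      rw [Finset.sum_const, Finset.card_erase_of_mem hw0, smul_eq_mul] at h1
      have h2 : 0 < S.card := Finset.card_pos.2 ⟨w0, hw0⟩
      omega
    · push Not at hex
      have h1 : ∑ w ∈ S, (dg G A w + dg G B w) ≤ ∑ w ∈ S, 23 := by
        apply Finset.sum_le_sum
        intro w hw
        have h2 := hle w (hS hw)
        have h3 := hex w hw
        omega
      rw [Finset.sum_const, smul_eq_mul] at h1
      omega
  have h21 : ∀ v ∈ R, 21 ≤ dg G A v + dg G B v := by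
    intro v hv
    have h1 := hsumle (R.erase v) (Finset.erase_subset _ _)
    rw [← Finset.add_sum_erase _ _ hv] at hcount
    rw [Finset.card_erase_of_mem hv] at h1
    have h2 : 0 < R.card := Finset.card_pos.2 ⟨v, hv⟩
    omega
  -- the dichotomy for all vertices
  have hP : ∀ v, (dg G A v ≤ 1 ∧ 20 ≤ dg G B v) ∨ (dg G B v ≤ 1 ∧ 20 ≤ dg G A v) := by
    intro v
    by_cases hvA : v ∈ A
    · have := h.inA hvA
      left; omega
    by_cases hvB : v ∈ B
    · have := h.symm.inA hvB
      right; omega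
    have hvR : v ∈ R := by
      rw [hR, Finset.mem_sdiff, Finset.mem_union]
      exact ⟨Finset.mem_univ _, by tauto⟩
    have h1 := hd v hvR
    have h2 := h21 v hvR
    omega
  let S : Finset V := univ.filter (fun v => dg G A v ≤ 1)
  let T : Finset V := univ.filter (fun v => ¬ dg G A v ≤ 1)
  have hS : ∀ v ∈ S, 20 ≤ dg G B v := by
    intro v hv
    have h1 : dg G A v ≤ 1 := (Finset.mem_filter.1 hv).2
    have := hP v
    omega
  have hT : ∀ v ∈ T, 20 ≤ dg G A v := by
    intro v hv
    have h1 : ¬ dg G A v ≤ 1 := (Finset.mem_filter.1 hv).2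
    have := hP v
    omega
  have hSS : ∑ v ∈ S, dg G S v ≤ 2 := inner_le S fun x hx y hy z hz w hw hxy hzw =>
    h.same (hS x hx) (hS y hy) (hS z hz) (hS w hw) hxy hzw
  have hTT : ∑ v ∈ T, dg G T v ≤ 2 := inner_le T fun x hx y hy z hz w hw hxy hzw =>
    h.symm.same (hT x hx) (hT y hy) (hT z hz) (hT w hw) hxy hzw
  have hcard : S.card + T.card = Fintype.card V := by
    rw [← Finset.card_univ]
    exact Finset.card_filter_add_card_filter_not _
  -- degrees
  have hdeg : ∀ v, G.degree v = dg G S v + dg G T v := by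
    intro v
    unfold dg
    rw [← SimpleGraph.card_neighborFinset_eq_degree, Finset.filter_filter, Finset.filter_filter]
    rw [← Finset.card_filter_add_card_filter_not (s := G.neighborFinset v)
      (fun u => dg G A u ≤ 1)]
    congr 2
    · ext u
      simp [and_comm]
    · ext u
      simp [and_comm]
  have hswap : ∑ v ∈ T, dg G S v = ∑ v ∈ S, dg G T v := by
    unfold dg
    simp_rw [Finset.card_filter]
    rw [Finset.sum_comm]
    apply Finset.sum_congr rfl
    intro v _
    apply Finset.sum_congr rfl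
    intro w _
    simp only [G.adj_comm]
  have htot : 2 * G.edgeFinset.card =
      ∑ v ∈ S, dg G S v + ∑ v ∈ T, dg G T v + 2 * ∑ v ∈ S, dg G T v := by
    rw [← G.sum_degrees_eq_twice_card_edges]
    have h1 : ∑ v, G.degree v = ∑ v ∈ S, G.degree v + ∑ v ∈ T, G.degree v :=
      (Finset.sum_filter_add_sum_filter_not _ _ _).symm
    rw [h1]
    simp_rw [hdeg]
    rw [Finset.sum_add_distrib, Finset.sum_add_distrib, hswap]
    ring
  have hST : ∑ v ∈ S, dg G T v ≤ S.card * T.card := by
    calc ∑ v ∈ S, dg G T v ≤ ∑ v ∈ S, T.card := Finset.sum_le_sum fun v _ => dg_le G T v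
      _ = S.card * T.card := by rw [Finset.sum_const, smul_eq_mul]
  have hprod : 4 * (S.card * T.card) ≤ (Fintype.card V) ^ 2 := by
    rw [← hcard]
    nlinarith [sq_nonneg ((S.card : ℤ) - T.card), Nat.mul_le_mul_left 1 hST,
      (by
        have h1 : (0 : ℤ) ≤ ((S.card : ℤ) - T.card) ^ 2 := sq_nonneg _
        have h2 : (4 * (S.card * T.card) : ℤ) ≤ ((S.card : ℤ) + T.card) ^ 2 := by nlinarith
        exact_mod_cast h2 : 4 * (S.card * T.card) ≤ (S.card + T.card) ^ 2)]
  by_contra hcon
  push Not at hcon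
  have e0 : S.card * T.card ≤ (Fintype.card V) ^ 2 / 4 := by omega
  have e1 : 0 < ∑ v ∈ S, dg G S v := by omega
  have e2 : 0 < ∑ v ∈ T, dg G T v := by omega
  have e3 : S.card * T.card ≤ ∑ v ∈ S, dg G T v := by omega
  have hedge : ∀ S : Finset V, 0 < ∑ v ∈ S, dg G S v → ∃ x ∈ S, ∃ y ∈ S, G.Adj x y := by
    intro S hpos
    by_contra hno
    push Not at hno
    have : ∑ v ∈ S, dg G S v = 0 := by
      apply Finset.sum_eq_zero
      intro v hv
      unfold dg
      rw [Finset.card_eq_zero, Finset.filter_eq_empty_iff]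
      exact fun u hu => hno v hv u hu
    omega
  have hfull : ∀ v ∈ S, ∀ w ∈ T, G.Adj v w := by
    have h1 : ∀ v ∈ S, dg G T v = T.card := by
      by_contra hno
      push Not at hno
      obtain ⟨v, hv, hne⟩ := hno
      have h2 : ∑ v ∈ S, dg G T v < ∑ v ∈ S, T.card := by
        apply Finset.sum_lt_sum (fun v _ => dg_le G T v)
        exact ⟨v, hv, lt_of_le_of_ne (dg_le G T v) hne⟩
      rw [Finset.sum_const, smul_eq_mul] at h2
      omega
    intro v hv
    exact adj_of_full G T v (h1 v hv).ge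
  obtain ⟨x, hx, x', hx', hxx⟩ := hedge S e1
  obtain ⟨y, hy, y', hy', hyy⟩ := hedge T e2
  refine h.cross (hS x hx) (hS x' hx') (hT y hy) (hT y' hy') hxx hyy (hfull x hx y hy)
    (hfull x hx y' hy') (hfull x' hx' y hy) (hfull x' hx' y' hy').ne

end Pool.Agent.Helper10K9.DF
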