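import Mathlib

/-!
# MP_d8cc50_co: definitions

Orientations, the numbers `D(G, E)` and `D(n, E)`, the graph `G_M(t)`, and the decomposition families
`𝓜(H)` (undirected) and `𝓜(E)` (directed).
-/

set_option autoImplicit false

namespace Pool.Agent.Helper10K9.DF

open SimpleGraph

/-- `D` is an orientation of the simple graph `G`: arcs of `D` are edges of `G`, and every edge of `G`
carries exactly one of its two arcs. -/
def IsOrientation {V : Type} (G : SimpleGraph V) (D : V → V → Prop) : Prop :=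
  (∀ u v, D u v → G.Adj u v) ∧
    ∀ u v, G.Adj u v → (D u v ∧ ¬ D v u) ∨ (D v u ∧ ¬ D u v)

/-- The directed graph `D` contains a copy of the directed graph `E` as a (not necessarily induced)
subgraph. -/
def Contains {V W : Type} (D : V → V → Prop) (E : W → W → Prop) : Prop :=
  ∃ f : W → V, Function.Injective f ∧ ∀ a b, E a b → D (f a) (f b)

/-- `D(G, E)`: the number of orientations of `G` which contain no copy of `E`. -/
noncomputable def DG {V W : Type} (G : SimpleGraph V) (E : W → W → Prop) : ℕ :=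
  {D : V → V → Prop | IsOrientation G D ∧ ¬ Contains D E}.ncard

/-- `D(n, E)`: the maximum of `D(G, E)` over all graphs `G` on `n` vertices. -/
noncomputable def DN {W : Type} (n : ℕ) (E : W → W → Prop) : ℕ :=
  ⨆ G : SimpleGraph (Fin n), DG G E

/-- The graph `G_M(t) = M' ⊗ K_{p-1}(t)`: `M'` is `M` with `t` isolated vertices added,
`K_{p-1}(t)` is complete `(p-1)`-partite with parts of size `t`, and `⊗` is the join. -/
def GM {W : Type} (M : SimpleGraph W) (p t : ℕ) :
    SimpleGraph ((W ⊕ Fin t) ⊕ (Fin (p - 1) × Fin t)) where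
  Adj x y := match x, y with
    | Sum.inl (Sum.inl a), Sum.inl (Sum.inl b) => M.Adj a b
    | Sum.inl (Sum.inl _), Sum.inl (Sum.inr _) => False
    | Sum.inl (Sum.inr _), Sum.inl _ => False
    | Sum.inl _, Sum.inr _ => True
    | Sum.inr _, Sum.inl _ => True
    | Sum.inr a, Sum.inr b => a.1 ≠ b.1
  symm := ⟨by
    rintro ((x | x) | x) ((y | y) | y) h <;> first | exact h.symm | exact h | trivial⟩
  loopless := ⟨by
    rintro ((x | x) | x) h
    · exact M.loopless.irrefl _ h
    · exact h
    · exact h rfl⟩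

/-- `M` belongs to the decomposition family `𝓜(H)`: `G_M(t)` contains `H` for some `t`, and `M` is
minimal (under taking subgraphs) with this property. -/
def InM {V W : Type} (H : SimpleGraph V) (p : ℕ) (M : SimpleGraph W) : Prop :=
  (∃ t : ℕ, 1 ≤ t ∧ H ⊑ GM M p t) ∧
    ∀ S : M.Subgraph, S ≠ ⊤ → ∀ t : ℕ, 1 ≤ t → ¬ H ⊑ GM S.coe p t

/-- The directed graph `D` on `W` belongs to `vec(𝓜(H))`: it is an orientation of a member `M` of
`𝓜(H)`. -/
def InVecM {V W : Type} (H : SimpleGraph V) (p : ℕ) (D : W → W → Prop) : Prop :=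
  ∃ M : SimpleGraph W, InM H p M ∧ IsOrientation M D

/-- The directed graph `D` on `W` belongs to `𝓜(E)`, where `E` is an orientation of `H`: its
underlying graph `M` lies in `𝓜(H)` and for some `t` there is an orientation of `G_M(t)` which contains
a copy of `E` and whose restriction to `V(M)` is isomorphic to `D`. -/
def InMvec {V W : Type} (H : SimpleGraph V) (E : V → V → Prop) (p : ℕ) (D : W → W → Prop) : Prop :=
  ∃ M : SimpleGraph W, InM H p M ∧ IsOrientation M D ∧
    ∃ t : ℕ, 1 ≤ t ∧ ∃ D' : (W ⊕ Fin t) ⊕ (Fin (p - 1) × Fin t) →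
      (W ⊕ Fin t) ⊕ (Fin (p - 1) × Fin t) → Prop,
      IsOrientation (GM M p t) D' ∧ Contains D' E ∧
        ∃ e : W ≃ W, ∀ a b, D' (Sum.inl (Sum.inl a)) (Sum.inl (Sum.inl b)) ↔ D (e a) (e b)

/-- The statement asked for in Q1: if `E` is an orientation of `H`, `χ(H) = p + 1`, and
`𝓜(E) = vec(𝓜(H))`, then `D(n, E) = 2 ^ ex(n, H)` for all large `n`. -/
def Conj : Prop :=
  ∀ (V : Type) [Fintype V] (H : SimpleGraph V) (E : V → V → Prop) (p : ℕ), 1 ≤ p →
    IsOrientation H E → H.chromaticNumber = ((p + 1 : ℕ) : ℕ∞) →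
    (∀ (W : Type) [Finite W] (D : W → W → Prop), InMvec H E p D ↔ InVecM H p D) →
    ∃ n0 : ℕ, ∀ n, n0 ≤ n → DN n E = 2 ^ extremalNumber n H

end Pool.Agent.Helper10K9.DF
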