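import Pool.Agent.Helper10K9.DF.Graph

/-!
# MP_d8cc50_co: finding `H0` in a complete bipartite graph with two additional edges
-/

set_option autoImplicit false

namespace Pool.Agent.Helper10K9.DF

open SimpleGraph Finset

variable {V : Type}

/-- The condition on an arc for a placement given by a colouring and the images of special
vertices. -/
def OK (G : SimpleGraph V) (col : Fin 11 → Bool) (sp : Fin 11 → Option V) (X Y : Finset V)
    (a b : Fin 11) : Prop :=
  match sp a, sp b with
  | some x, some y => G.Adj x y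
  | some x, none => ∀ z ∈ (if col b then X else Y), G.Adj x z
  | none, some y => ∀ z ∈ (if col a then X else Y), G.Adj z y
  | none, none => col a ≠ col b

theorem emb (G : SimpleGraph V) (col : Fin 11 → Bool) (sp : Fin 11 → Option V)
    (inv : V → Fin 11) (hinv : ∀ i x, sp i = some x → inv x = i) (X Y : Finset V)
    (hX : 11 ≤ X.card) (hY : 11 ≤ Y.card) (hXY : ∀ x ∈ X, ∀ y ∈ Y, G.Adj x y)
    (hsX : ∀ i x, sp i = some x → x ∉ X ∧ x ∉ Y) (hE : ∀ a b, E0 a b → OK G col sp X Y a b) :
    H0 ⊑ G := by
  classical
  obtain ⟨ex⟩ : Nonempty (Fin 11 ↪ X) := by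
    apply Function.Embedding.nonempty_of_card_le
    simpa using hX
  obtain ⟨ey⟩ : Nonempty (Fin 11 ↪ Y) := by
    apply Function.Embedding.nonempty_of_card_le
    simpa using hY
  let f : Fin 11 → V := fun i =>
    match sp i with
    | some x => x
    | none => if col i then (ex i : V) else (ey i : V)
  have hs : ∀ i x, sp i = some x → f i = x := by
    intro i x h
    simp only [f, h]
  have hn : ∀ i, sp i = none → f i ∈ (if col i then X else Y) := by
    intro i h
    by_cases hc : col i
    · simp [f, h, hc]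
    · simp [f, h, hc]
  have hn' : ∀ i, sp i = none → f i = if col i then (ex i : V) else (ey i : V) := by
    intro i h
    simp only [f, h]
  have hnXY : ∀ i, sp i = none → f i ∈ X ∨ f i ∈ Y := by
    intro i h
    have := hn i h
    split_ifs at this
    · exact Or.inl this
    · exact Or.inr this
  have hdis : ∀ x, x ∈ X → x ∈ Y → False := fun x h1 h2 => (hXY x h1 x h2).ne rfl
  have hinj : Function.Injective f := by
    intro i j hij
    rcases hsi : sp i with _ | x <;> rcases hsj : sp j with _ | y
    · rw [hn' i hsi, hn' j hsj] at hij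
      by_cases hci : col i = true <;> by_cases hcj : col j = true
      · rw [if_pos hci, if_pos hcj] at hij
        exact ex.injective (Subtype.ext hij)
      · rw [if_pos hci, if_neg hcj] at hij
        exact absurd (ey j).2 (fun h => hdis _ (ex i).2 (by rw [hij]; exact h))
      · rw [if_neg hci, if_pos hcj] at hij
        exact absurd (ex j).2 (fun h => hdis _ h (by rw [← hij]; exact (ey i).2))
      · rw [if_neg hci, if_neg hcj] at hij
        exact ey.injective (Subtype.ext hij)
    · rw [hs j y hsj] at hij
      have h1 := hsX j y hsj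
      rcases hnXY i hsi with h | h
      · exact absurd (hij ▸ h) h1.1
      · exact absurd (hij ▸ h) h1.2
    · rw [hs i x hsi] at hij
      have h1 := hsX i x hsi
      rcases hnXY j hsj with h | h
      · exact absurd (hij ▸ h) h1.1
      · exact absurd (hij ▸ h) h1.2
    · rw [hs i x hsi, hs j y hsj] at hij
      subst hij
      exact (hinv i x hsi).symm.trans (hinv j x hsj)
  have hadj : ∀ a b, E0 a b → G.Adj (f a) (f b) := by
    intro a b hab
    have hok := hE a b hab
    unfold OK at hok
    rcases hsa : sp a with _ | x <;> rcases hsb : sp b with _ | y <;> rw [hsa, hsb] at hok <;>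
      simp only at hok
    · have h1 := hn a hsa
      have h2 := hn b hsb
      by_cases hca : col a = true <;> by_cases hcb : col b = true
      · exact absurd (hca.trans hcb.symm) hok
      · rw [if_pos hca] at h1
        rw [if_neg hcb] at h2
        exact hXY _ h1 _ h2
      · rw [if_neg hca] at h1
        rw [if_pos hcb] at h2
        exact (hXY _ h2 _ h1).symm
      · exact absurd (by simp_all) hok
    · rw [hs b y hsb]
      exact hok _ (hn a hsa)
    · rw [hs a x hsa]
      exact hok _ (hn b hsb)
    · rw [hs a x hsa, hs b y hsb]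
      exact hok
  refine ⟨⟨⟨f, ?_⟩, hinj⟩⟩
  intro a b hab
  rcases hab with h | h
  · exact hadj a b h
  · exact (hadj b a h).symm

/-- A star with two inner edges. -/
theorem star (G : SimpleGraph V) (X Y : Finset V) (hX : 11 ≤ X.card) (hY : 11 ≤ Y.card)
    (hXY : ∀ x ∈ X, ∀ y ∈ Y, G.Adj x y) (c a b : V) (hca : G.Adj c a) (hcb : G.Adj c b)
    (hab : a ≠ b) (hc : ∀ y ∈ Y, G.Adj c y) (ha : ∀ y ∈ Y, G.Adj a y) (hb : ∀ y ∈ Y, G.Adj b y)
    (hcX : c ∉ X) (haX : a ∉ X) (hbX : b ∉ X) : H0 ⊑ G := by
  classical
  have hcY : c ∉ Y := fun h => (hc c h).ne rfl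
  have haY : a ∉ Y := fun h => (ha a h).ne rfl
  have hbY : b ∉ Y := fun h => (hb b h).ne rfl
  apply emb G ![true, false, true, true, false, true, false, true, false, true, true]
      ![some c, none, some a, some b, none, none, none, none, none, none, none]
      (fun u => if u = c then 0 else if u = a then 2 else 3) ?_ X Y hX hY hXY
  · intro i u hi
    fin_cases i <;> simp at hi <;> subst hi <;> simp [hcX, hcY, haX, haY, hbX, hbY]
  · refine E0_cases ?_ ?_ ?_ ?_ ?_ ?_ ?_ ?_ ?_ ?_ ?_ ?_ ?_ ?_ ?_
    · exact hca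
    · exact hcb
    · exact hc
    · exact ha
    · exact hb
    · exact fun z hz => (hc z hz).symm
    · exact fun h => Bool.noConfusion h
    · exact fun h => Bool.noConfusion h
    · exact fun h => Bool.noConfusion h
    · exact fun h => Bool.noConfusion h
    · exact fun h => Bool.noConfusion h
    · exact fun h => Bool.noConfusion h
    · exact fun h => Bool.noConfusion h
    · exact fun h => Bool.noConfusion h
    · exact fun h => Bool.noConfusion h
  · intro i u hi
    fin_cases i <;> simp at hi <;> subst hi <;> simp [hca.ne.symm, hcb.ne.symm, hab.symm]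

/-- Two disjoint inner edges in one part. -/
theorem two (G : SimpleGraph V) (X Y : Finset V) (hX : 11 ≤ X.card) (hY : 11 ≤ Y.card)
    (hXY : ∀ x ∈ X, ∀ y ∈ Y, G.Adj x y) (x y z w : V) (hxy : G.Adj x y) (hzw : G.Adj z w)
    (hxz : x ≠ z) (hxw : x ≠ w) (hyz : y ≠ z) (hyw : y ≠ w)
    (hx : ∀ u ∈ Y, G.Adj x u) (hy : ∀ u ∈ Y, G.Adj y u) (hz : ∀ u ∈ Y, G.Adj z u)
    (hw : ∀ u ∈ Y, G.Adj w u)
    (hxX : x ∉ X) (hyX : y ∉ X) (hzX : z ∉ X) (hwX : w ∉ X) : H0 ⊑ G := by
  classical
  have hxY : x ∉ Y := fun h => (hx x h).ne rfl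
  have hyY : y ∉ Y := fun h => (hy y h).ne rfl
  have hzY : z ∉ Y := fun h => (hz z h).ne rfl
  have hwY : w ∉ Y := fun h => (hw w h).ne rfl
  apply emb G ![true, true, false, false, false, true, false, true, true, false, false]
      ![some x, some y, none, none, none, some z, none, none, some w, none, none]
      (fun u => if u = x then 0 else if u = y then 1 else if u = z then 5 else 8) ?_ X Y hX hY hXY
  · intro i u hi
    fin_cases i <;> simp at hi <;> subst hi <;> simp [hxX, hxY, hyX, hyY, hzX, hzY, hwX, hwY]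
  · refine E0_cases ?_ ?_ ?_ ?_ ?_ ?_ ?_ ?_ ?_ ?_ ?_ ?_ ?_ ?_ ?_
    · exact hx
    · exact hx
    · exact hxy
    · exact fun u hu => (hy u hu).symm
    · exact fun u hu => (hy u hu).symm
    · exact fun u hu => (hx u hu).symm
    · exact fun u hu => (hz u hu).symm
    · exact hz
    · exact fun h => Bool.noConfusion h
    · exact fun h => Bool.noConfusion h
    · exact hzw
    · exact hw
    · exact fun u hu => (hy u hu).symm
    · exact hw
    · exact fun u hu => (hy u hu).symm
  · intro i u hi
    fin_cases i <;> simp at hi <;> subst hi <;>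
      simp [hxy.ne.symm, hzw.ne.symm, hxz.symm, hxw.symm, hyz.symm, hyw.symm]

/-- One inner edge `x x'` in the part of `X` and one inner edge `y y'` in the part of `Y`; the pair
`x' y'` need not be adjacent. -/
theorem cross (G : SimpleGraph V) (X Y : Finset V) (hX : 11 ≤ X.card) (hY : 11 ≤ Y.card)
    (hXY : ∀ x ∈ X, ∀ y ∈ Y, G.Adj x y) (x x' y y' : V) (hxx : G.Adj x x') (hyy : G.Adj y y')
    (h1 : G.Adj x y) (h2 : G.Adj x y') (h3 : G.Adj x' y) (h4 : x' ≠ y')
    (hx : ∀ u ∈ Y, G.Adj x u) (hx' : ∀ u ∈ Y, G.Adj x' u) (hy : ∀ u ∈ X, G.Adj y u)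
    (hy' : ∀ u ∈ X, G.Adj y' u)
    (hxX : x ∉ X) (hxX' : x' ∉ X) (hyY : y ∉ Y) (hyY' : y' ∉ Y) : H0 ⊑ G := by
  classical
  have hxY : x ∉ Y := fun h => (hx x h).ne rfl
  have hxY' : x' ∉ Y := fun h => (hx' x' h).ne rfl
  have hyX : y ∉ X := fun h => (hy y h).ne rfl
  have hyX' : y' ∉ X := fun h => (hy' y' h).ne rfl
  -- `p = x`, `r = x'`, `q = y`, `s = y'`
  apply emb G ![true, false, true, false, false, true, false, true, false, true, true]
      ![some x, some y, some x', some y', none, none, none, none, none, none, none]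
      (fun u => if u = x then 0 else if u = y then 1 else if u = x' then 2 else 3) ?_ X Y hX hY hXY
  · intro i u hi
    fin_cases i <;> simp at hi <;> subst hi <;> simp [hxX, hxY, hxX', hxY', hyX, hyY, hyX', hyY']
  · refine E0_cases ?_ ?_ ?_ ?_ ?_ ?_ ?_ ?_ ?_ ?_ ?_ ?_ ?_ ?_ ?_
    · exact hxx
    · exact h2
    · exact h1
    · exact h3
    · exact hyy.symm
    · exact fun u hu => (hx u hu).symm
    · exact fun h => Bool.noConfusion h
    · exact fun h => Bool.noConfusion h
    · exact fun h => Bool.noConfusion h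
    · exact fun h => Bool.noConfusion h
    · exact fun h => Bool.noConfusion h
    · exact fun h => Bool.noConfusion h
    · exact fun u hu => (hy u hu).symm
    · exact fun h => Bool.noConfusion h
    · exact fun u hu => (hy u hu).symm
  · intro i u hi
    fin_cases i <;> simp at hi <;> subst hi <;>
      simp [hxx.ne.symm, hyy.ne.symm, h1.ne.symm, h2.ne.symm, h3.ne, h4.symm]

end Pool.Agent.Helper10K9.DF
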