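import Pool.Agent.Helper10K9.DF.Emb

/-!
# MP_d8cc50_co: a dense graph contains `K_{23,23}`
-/

set_option autoImplicit false

namespace Pool.Agent.Helper10K9.DF

open SimpleGraph Finset

theorem exists_K {n C : ℕ} (hC : C = 2 ^ 184) (hn : 200 * C + 800 ≤ n) (G : SimpleGraph (Fin n))
    [DecidableRel G.Adj] (he : n ^ 2 / 4 ≤ G.edgeFinset.card) :
    ∃ A B : Finset (Fin n), A.card = 23 ∧ B.card = 23 ∧ ∀ a ∈ A, ∀ b ∈ B, G.Adj a b := by
  classical
  have hCpos : 0 < C := by rw [hC]; positivity
  have hsum := G.sum_degrees_eq_twice_card_edges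
  -- many vertices of large degree
  let D : Finset (Fin n) := univ.filter (fun v => n ≤ 4 * G.degree v)
  have hD : 184 ≤ D.card := by
    have h1 : ∀ v : Fin n, 4 * G.degree v ≤ (if v ∈ D then 4 * n else 0) + n := by
      intro v
      split_ifs with hv
      · have : G.degree v < Fintype.card (Fin n) := G.degree_lt_card_verts v
        rw [Fintype.card_fin] at this
        omega
      · have : ¬ n ≤ 4 * G.degree v := fun h => hv (by simp [D, h])
        omega
    have h2 : 4 * ∑ v, G.degree v ≤ D.card * (4 * n) + n * n := by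
      rw [mul_sum]
      calc ∑ v, 4 * G.degree v ≤ ∑ v : Fin n, ((if v ∈ D then 4 * n else 0) + n) :=
            Finset.sum_le_sum fun v _ => h1 v
        _ = D.card * (4 * n) + n * n := by
            rw [Finset.sum_add_distrib, ← Finset.sum_filter]
            simp [Finset.sum_const]
    rw [hsum] at h2
    by_contra hlt
    have hlt' : D.card ≤ 183 := by omega
    have h3 : D.card * (4 * n) ≤ 183 * (4 * n) := Nat.mul_le_mul_right _ hlt'
    have h4 : n ^ 2 < 4 * (n ^ 2 / 4) + 4 := by omega
    have h5 : 8 * (n ^ 2 / 4) ≤ 183 * (4 * n) + n * n := by omega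
    have h6 : n ^ 2 = n * n := by ring
    have h7 : 800 * n ≤ n * n := Nat.mul_le_mul_right _ (by omega)
    omega
  obtain ⟨T, hTD, hT⟩ := Finset.exists_subset_card_eq hD
  -- double counting
  have hdc : ∑ u : Fin n, (T.filter (fun t => G.Adj u t)).card = ∑ t ∈ T, G.degree t := by
    have e1 : ∀ u : Fin n, (T.filter (fun t => G.Adj u t)).card =
        ∑ t ∈ T, if G.Adj u t then 1 else 0 := fun u => by rw [Finset.card_filter]
    have e2 : ∀ t : Fin n, G.degree t = ∑ u : Fin n, if G.Adj u t then 1 else 0 := by
      intro t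
      rw [← Finset.card_filter, ← SimpleGraph.card_neighborFinset_eq_degree]
      congr 1
      ext u
      simp [G.adj_comm]
    simp_rw [e1, e2]
    exact Finset.sum_comm
  have hlow : 46 * n ≤ ∑ u : Fin n, (T.filter (fun t => G.Adj u t)).card := by
    rw [hdc]
    have h1 : ∑ t ∈ T, n ≤ ∑ t ∈ T, 4 * G.degree t := by
      apply Finset.sum_le_sum
      intro t ht
      have := hTD ht
      simpa [D] using this
    rw [Finset.sum_const, hT, smul_eq_mul, ← mul_sum] at h1
    omega
  let U : Finset (Fin n) := univ.filter (fun u => 23 ≤ (T.filter (fun t => G.Adj u t)).card)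
  have hup : ∑ u : Fin n, (T.filter (fun t => G.Adj u t)).card ≤ U.card * 184 + n * 22 := by
    calc ∑ u : Fin n, (T.filter (fun t => G.Adj u t)).card
        ≤ ∑ u : Fin n, ((if u ∈ U then 184 else 0) + 22) := by
          apply Finset.sum_le_sum
          intro u _
          split_ifs with hu
          · have : (T.filter (fun t => G.Adj u t)).card ≤ T.card := Finset.card_filter_le _ _
            omega
          · have : ¬ 23 ≤ (T.filter (fun t => G.Adj u t)).card := fun h => hu (by simp [U, h])
            omega
      _ = U.card * 184 + n * 22 := by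
          rw [Finset.sum_add_distrib, ← Finset.sum_filter]
          simp [Finset.sum_const]
  have hU : C * 22 < U.card := by omega
  have hpow : T.powerset.card = C := by rw [Finset.card_powerset, hT, hC]
  obtain ⟨y, hy, hcard⟩ := Finset.exists_lt_card_fiber_of_mul_lt_card_of_maps_to
    (s := U) (t := T.powerset) (f := fun u => T.filter (fun t => G.Adj u t)) (n := 22)
    (fun u _ => Finset.mem_powerset.2 (Finset.filter_subset _ _)) (by rw [hpow]; exact hU)
  have hycard : 23 ≤ y.card := by
    obtain ⟨u, hu⟩ : (U.filter (fun u => T.filter (fun t => G.Adj u t) = y)).Nonempty := by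
      rw [← Finset.card_pos]; omega
    rw [Finset.mem_filter] at hu
    rw [← hu.2]
    have := hu.1
    simpa [U] using this
  obtain ⟨A, hAy, hA⟩ := Finset.exists_subset_card_eq hycard
  obtain ⟨B, hBy, hB⟩ := Finset.exists_subset_card_eq (show 23 ≤ _ from hcard)
  refine ⟨A, B, hA, hB, fun a ha b hb => ?_⟩
  have h1 := (Finset.mem_filter.1 (hBy hb)).2
  have h2 := hAy ha
  rw [← h1, Finset.mem_filter] at h2
  exact h2.2.symm

end Pool.Agent.Helper10K9.DF
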