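import Pool.Agent.Helper10K9.DF.Core
import Pool.Agent.Helper10K9.DF.KST

/-!
# MP_d8cc50_co: `ex(n, H0) ≤ ⌊n²/4⌋ + 1` for infinitely many `n`
-/

set_option autoImplicit false

namespace Pool.Agent.Helper10K9.DF

open SimpleGraph Finset

theorem H0_ne_bot : H0 ≠ ⊥ := by
  intro h
  have : H0.Adj 0 2 := by decide
  rw [h] at this
  exact this

/-- bipartite graphs are `H0`-free -/
theorem free_of_bip {V : Type} {G : SimpleGraph V} (c : V → Bool)
    (hc : ∀ u v, G.Adj u v → c u ≠ c v) : ¬ H0 ⊑ G := by
  rintro ⟨f⟩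
  obtain ⟨a, b, -, -, h1, -, h3, -⟩ := col_two (fun i => c (f i))
  exact hc _ _ (f.toHom.map_adj (Or.inl h1)) h3

theorem ex_lower (n : ℕ) : n ^ 2 / 4 ≤ extremalNumber n H0 := by
  have h1 : (turanGraph n 2).edgeFinset.card = n ^ 2 / 4 := by
    rw [card_edgeFinset_turanGraph]
    rcases Nat.even_or_odd' n with ⟨k, rfl | rfl⟩
    · have : (2 * k) % 2 = 0 := by omega
      rw [this]
      simp
    · have : (2 * k + 1) % 2 = 1 := by omega
      rw [this]
      have h2 : (2 * k + 1) ^ 2 = 4 * (k ^ 2 + k) + 1 := by ring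
      rw [h2]
      simp
      omega
  rw [← h1]
  have h2 : H0.Free (turanGraph n 2) := by
    apply free_of_bip (fun v : Fin n => decide (v.val % 2 = 0))
    intro u v huv
    have huv : (u : ℕ) % 2 ≠ (v : ℕ) % 2 := huv
    intro he
    have he := decide_eq_decide.1 he
    omega
  have := card_edgeFinset_le_extremalNumber h2
  rwa [Fintype.card_fin] at this

theorem progress (n0 : ℕ) : ∃ n, n0 ≤ n ∧ 46 ≤ n ∧
    extremalNumber (n - 46) H0 + n ^ 2 / 4 ≤ extremalNumber n H0 + (n - 46) ^ 2 / 4 := by
  by_contra hcon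
  push Not at hcon
  set m := n0 + 46 with hm
  have key : ∀ k : ℕ, extremalNumber (m + 46 * k) H0 + k ≤
      (m + 46 * k) ^ 2 / 4 + extremalNumber m H0 := by
    intro k
    induction k with
    | zero => simp
    | succ k ih =>
      have h1 := hcon (m + 46 * (k + 1)) (by omega) (by omega)
      have e1 : m + 46 * (k + 1) - 46 = m + 46 * k := by omega
      rw [e1] at h1
      omega
  have h1 := key (extremalNumber m H0 + 1)
  have h2 := ex_lower (m + 46 * (extremalNumber m H0 + 1))
  omega

theorem sum_adj_swap {V : Type} [Fintype V] [DecidableEq V] (G : SimpleGraph V)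
    [DecidableRel G.Adj] (S T : Finset V) : ∑ v ∈ T, dg G S v = ∑ v ∈ S, dg G T v := by
  unfold dg
  simp_rw [Finset.card_filter]
  rw [Finset.sum_comm]
  apply Finset.sum_congr rfl
  intro v _
  apply Finset.sum_congr rfl
  intro w _
  simp only [G.adj_comm]

/-- edges of an induced subgraph -/
theorem induce_edges {n : ℕ} (G : SimpleGraph (Fin n)) [DecidableRel G.Adj] (hfree : ¬ H0 ⊑ G)
    (R : Finset (Fin n)) : ∑ v ∈ R, dg G R v ≤ 2 * extremalNumber R.card H0 := by
  classical
  let G' : SimpleGraph {x // x ∈ R} := G.comap (Subtype.val)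
  have hG' : H0.Free G' := by
    intro hc
    apply hfree
    refine hc.trans ⟨⟨⟨Subtype.val, fun h => h⟩, Subtype.val_injective⟩⟩
  have h1 := card_edgeFinset_le_extremalNumber hG'
  rw [Fintype.card_coe] at h1
  have h2 : ∑ v ∈ R, dg G R v = 2 * G'.edgeFinset.card := by
    rw [← G'.sum_degrees_eq_twice_card_edges, ← Finset.sum_coe_sort R]
    apply Finset.sum_congr rfl
    intro v _
    unfold dg
    rw [← SimpleGraph.card_neighborFinset_eq_degree]
    symm
    apply Finset.card_bij (fun (x : {x // x ∈ R}) _ => (x : Fin n))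
    · intro x hx
      rw [SimpleGraph.mem_neighborFinset] at hx
      rw [Finset.mem_filter]
      exact ⟨x.2, hx⟩
    · intro x _ y _ h
      exact Subtype.ext h
    · intro x hx
      rw [Finset.mem_filter] at hx
      refine ⟨⟨x, hx.1⟩, ?_, rfl⟩
      rw [SimpleGraph.mem_neighborFinset]
      exact hx.2
  omega

theorem ex_upper (n0 : ℕ) : ∃ n, n0 ≤ n ∧ 4 ≤ n ∧ extremalNumber n H0 ≤ n ^ 2 / 4 + 1 := by
  obtain ⟨C, hC⟩ : ∃ C : ℕ, C = 2 ^ 184 := ⟨_, rfl⟩
  obtain ⟨n, hn, hn46, hprog⟩ := progress (n0 + (200 * C + 800))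
  refine ⟨n, le_trans (Nat.le_add_right _ _) hn, le_trans (by norm_num) hn46, ?_⟩
  obtain ⟨G, hdec, hext⟩ := exists_isExtremal_free (V := Fin n) H0_ne_bot
  have hcardG : G.edgeFinset.card = extremalNumber n H0 := by
    have := card_edgeFinset_of_isExtremal_free hext
    rwa [Fintype.card_fin] at this
  have hfree : ¬ H0 ⊑ G := hext.1
  obtain ⟨A, B, hA, hB, hAB⟩ := exists_K hC (le_trans (Nat.le_add_left _ _) hn) G
    (by rw [hcardG]; exact ex_lower n)
  clear hC
  have hsit : Sit G A B := ⟨hfree, hA, hB, hAB⟩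
  have hdisj : Disjoint A B := by
    rw [Finset.disjoint_left]
    exact fun v hv => hsit.disj hv
  have hABcard : (A ∪ B).card = 46 := by
    rw [Finset.card_union_of_disjoint hdisj, hA, hB]
  set R : Finset (Fin n) := univ \ (A ∪ B) with hR
  have hRcard : R.card = n - 46 := by
    rw [hR, Finset.card_sdiff_of_subset (Finset.subset_univ _), Finset.card_univ, Fintype.card_fin, hABcard]
  rw [← hcardG]
  have hmain := hsit.main (by
    rw [← hR]
    -- inner edges of `A` and `B`
    have hAA : ∑ v ∈ A, dg G A v ≤ 2 := inner_le A fun x hx y hy z hz w hw hxy hzw => by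
      have h1 := (hsit.inA hx).1
      have h2 := (hsit.inA hy).1
      have h3 := (hsit.inA hz).1
      have h4 := (hsit.inA hw).1
      exact hsit.same (by omega) (by omega) (by omega) (by omega) hxy hzw
    have hBB : ∑ v ∈ B, dg G B v ≤ 2 := inner_le B fun x hx y hy z hz w hw hxy hzw => by
      have h1 := (hsit.symm.inA hx).1
      have h2 := (hsit.symm.inA hy).1
      have h3 := (hsit.symm.inA hz).1
      have h4 := (hsit.symm.inA hw).1
      exact hsit.symm.same (by omega) (by omega) (by omega) (by omega) hxy hzw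
    have hedge : ∀ S : Finset (Fin n), 0 < ∑ v ∈ S, dg G S v → ∃ x ∈ S, ∃ y ∈ S, G.Adj x y := by
      intro S hpos
      by_contra hno
      push Not at hno
      have : ∑ v ∈ S, dg G S v = 0 := by
        apply Finset.sum_eq_zero
        intro v hv
        unfold dg
        rw [Finset.card_eq_zero, Finset.filter_eq_empty_iff]
        exact fun u hu => hno v hv u hu
      omega
    have hAABB : ∑ v ∈ A, dg G A v + ∑ v ∈ B, dg G B v ≤ 2 := by
      by_cases h1 : ∑ v ∈ A, dg G A v = 0
      · omega
      by_cases h2 : ∑ v ∈ B, dg G B v = 0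
      · omega
      exfalso
      obtain ⟨x, hx, x', hx', hxx⟩ := hedge A (by omega)
      obtain ⟨y, hy, y', hy', hyy⟩ := hedge B (by omega)
      have h3 := (hsit.inA hx).1
      have h4 := (hsit.inA hx').1
      have h5 := (hsit.symm.inA hy).1
      have h6 := (hsit.symm.inA hy').1
      exact hsit.cross (by omega) (by omega) (by omega) (by omega) hxx hyy (hAB x hx y hy)
        (hAB x hx y' hy') (hAB x' hx' y hy) (hAB x' hx' y' hy').ne
    have hABs : ∑ v ∈ A, dg G B v = 529 := by
      rw [Finset.sum_congr rfl (fun v hv => (hsit.inA hv).1), Finset.sum_const, hA]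
      norm_num
    have hRR := induce_edges G hfree R
    rw [hRcard] at hRR
    have hdeg : ∀ v, G.degree v = dg G A v + dg G B v + dg G R v := by
      intro v
      unfold dg
      rw [← SimpleGraph.card_neighborFinset_eq_degree]
      have e1 : G.neighborFinset v = (A.filter (fun u => G.Adj v u)) ∪
          ((B.filter (fun u => G.Adj v u)) ∪ (R.filter (fun u => G.Adj v u))) := by
        ext u
        simp only [SimpleGraph.mem_neighborFinset, Finset.mem_union, Finset.mem_filter, hR,
          Finset.mem_sdiff, Finset.mem_univ, true_and]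
        tauto
      rw [e1, Finset.card_union_of_disjoint, Finset.card_union_of_disjoint]
      · ring
      · rw [Finset.disjoint_left]
        intro u h1 h2
        rw [Finset.mem_filter] at h1 h2
        rw [hR, Finset.mem_sdiff, Finset.mem_union] at h2
        exact h2.1.2 (Or.inr h1.1)
      · rw [Finset.disjoint_left]
        intro u h1 h2
        rw [Finset.mem_union, Finset.mem_filter, Finset.mem_filter, hR, Finset.mem_sdiff,
          Finset.mem_union] at h2
        rw [Finset.mem_filter] at h1
        rcases h2 with h2 | h2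
        · exact Finset.disjoint_left.1 hdisj h1.1 h2.1
        · exact h2.1.2 (Or.inl h1.1)
    have htot : 2 * G.edgeFinset.card = ∑ v ∈ A, G.degree v + ∑ v ∈ B, G.degree v +
        ∑ v ∈ R, G.degree v := by
      rw [← G.sum_degrees_eq_twice_card_edges, ← Finset.sum_union hdisj,
        ← Finset.sum_sdiff (Finset.subset_univ (A ∪ B)), add_comm]
    simp_rw [hdeg] at htot
    rw [Finset.sum_add_distrib, Finset.sum_add_distrib, Finset.sum_add_distrib,
      Finset.sum_add_distrib, Finset.sum_add_distrib, Finset.sum_add_distrib,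
      sum_adj_swap G A B, ← sum_adj_swap G A R, ← sum_adj_swap G B R, hABs, hcardG] at htot
    rw [Finset.sum_add_distrib, hRcard]
    have hsq : n ^ 2 / 4 = (n - 46) ^ 2 / 4 + (23 * n - 529) := by
      obtain ⟨k, rfl⟩ : ∃ k, n = k + 46 := ⟨n - 46, by omega⟩
      have e1 : (k + 46) ^ 2 = k ^ 2 + 4 * (23 * k + 529) := by ring
      have e2 : k + 46 - 46 = k := by omega
      rw [e1, e2]
      omega
    omega)
  rwa [Fintype.card_fin] at hmain

end Pool.Agent.Helper10K9.DF
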