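import Pool.Agent.Helper10K9.DF.Graph

/-!
# MP_d8cc50_co: the directed decomposition family of `E0` contains all orientations
-/

set_option autoImplicit false

namespace Pool.Agent.Helper10K9.DF

open SimpleGraph

variable {W : Type}

/-- If `G_M(t)` contains `H0` then `M` has two distinct edges. -/
theorem two_edges {M : SimpleGraph W} {t : ℕ} (h : H0 ⊑ GM M 2 t) :
    ∃ x y z w, M.Adj x y ∧ M.Adj z w ∧ s(x, y) ≠ s(z, w) := by
  obtain ⟨f⟩ := h
  have hinj : Function.Injective f := f.injective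
  have hadj : ∀ a b, E0 a b → (GM M 2 t).Adj (f a) (f b) := fun a b h =>
    f.toHom.map_adj (Or.inl h)
  obtain ⟨a, b, a', b', h1, h2, h3, h4, h5⟩ := col_two (fun i => (f i).isLeft)
  have key : ∀ a b, E0 a b → (f a).isLeft = (f b).isLeft →
      ∃ x y, f a = Sum.inl (Sum.inl x) ∧ f b = Sum.inl (Sum.inl y) ∧ M.Adj x y := by
    intro a b hab hl
    have hh := hadj a b hab
    rcases hfa : f a with (x | x) | x <;> rcases hfb : f b with (y | y) | y <;>
      rw [hfa, hfb] at hh hl
    · exact ⟨x, y, rfl, rfl, hh⟩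
    · exact absurd hh (fun h => h)
    · simp at hl
    · exact absurd hh (fun h => h)
    · exact absurd hh (fun h => h)
    · simp at hl
    · simp at hl
    · simp at hl
    · exact absurd (Subsingleton.elim (α := Fin 1) x.1 y.1) hh
  obtain ⟨x, y, hx, hy, hxy⟩ := key a b h1 h3
  obtain ⟨z, w, hz, hw, hzw⟩ := key a' b' h2 h4
  refine ⟨x, y, z, w, hxy, hzw, fun he => ?_⟩
  rcases Sym2.eq_iff.1 he with ⟨e1, e2⟩ | ⟨e1, e2⟩
  · have ha : a = a' := hinj (by rw [hx, hz, e1])
    have hb : b = b' := hinj (by rw [hy, hw, e2])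
    exact h5 (by rw [ha, hb])
  · have ha : a = b' := hinj (by rw [hx, hw, e1])
    have hb : b = a' := hinj (by rw [hy, hz, e2])
    subst ha hb
    exact E0_asymm _ _ h1 h2

/-- Extending an orientation of `M` and a placement of `E0` to an orientation of `G_M(t)`. -/
theorem extend [Finite W] {M : SimpleGraph W} {D : W → W → Prop} (hD : IsOrientation M D) {t : ℕ}
    (φ : Fin 11 → (W ⊕ Fin t) ⊕ (Fin (2 - 1) × Fin t)) (hφ : Function.Injective φ)
    (hadj : ∀ a b, E0 a b → (GM M 2 t).Adj (φ a) (φ b))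
    (hcons : ∀ a b x y, E0 a b → φ a = Sum.inl (Sum.inl x) → φ b = Sum.inl (Sum.inl y) → D x y) :
    ∃ D' : (W ⊕ Fin t) ⊕ (Fin (2 - 1) × Fin t) → (W ⊕ Fin t) ⊕ (Fin (2 - 1) × Fin t) → Prop,
      IsOrientation (GM M 2 t) D' ∧ Contains D' E0 ∧
        ∀ a b, D' (Sum.inl (Sum.inl a)) (Sum.inl (Sum.inl b)) ↔ D a b := by
  classical
  obtain ⟨n, ⟨r⟩⟩ := Finite.exists_equiv_fin ((W ⊕ Fin t) ⊕ (Fin (2 - 1) × Fin t))
  let bothW : (W ⊕ Fin t) ⊕ (Fin (2 - 1) × Fin t) → (W ⊕ Fin t) ⊕ (Fin (2 - 1) × Fin t) → Prop :=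
    fun x y => ∃ a b, x = Sum.inl (Sum.inl a) ∧ y = Sum.inl (Sum.inl b)
  let ed : (W ⊕ Fin t) ⊕ (Fin (2 - 1) × Fin t) → (W ⊕ Fin t) ⊕ (Fin (2 - 1) × Fin t) → Prop :=
    fun x y => ∃ a b, φ a = x ∧ φ b = y ∧ E0 a b
  let D' : (W ⊕ Fin t) ⊕ (Fin (2 - 1) × Fin t) → (W ⊕ Fin t) ⊕ (Fin (2 - 1) × Fin t) → Prop :=
    fun x y => (GM M 2 t).Adj x y ∧
      ((∃ a b, x = Sum.inl (Sum.inl a) ∧ y = Sum.inl (Sum.inl b) ∧ D a b) ∨
        (¬ bothW x y ∧ (ed x y ∨ ((¬ ed x y ∧ ¬ ed y x) ∧ r x < r y))))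
  have hed : ∀ x y, ed x y → ¬ ed y x := by
    rintro x y ⟨a, b, ha, hb, hab⟩ ⟨a', b', ha', hb', hab'⟩
    have e1 : a = b' := hφ (by rw [ha, hb'])
    have e2 : b = a' := hφ (by rw [hb, ha'])
    subst e1 e2
    exact E0_asymm _ _ hab hab'
  have hbs : ∀ x y, bothW x y → bothW y x := fun x y ⟨a, b, h1, h2⟩ => ⟨b, a, h2, h1⟩
  have hW : ∀ a b, D' (Sum.inl (Sum.inl a)) (Sum.inl (Sum.inl b)) ↔ D a b := by
    intro a b
    constructor
    · rintro ⟨-, ⟨a', b', h1, h2, h⟩ | ⟨h, -⟩⟩
      · have e1 : a = a' := by simpa using h1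
        have e2 : b = b' := by simpa using h2
        rw [e1, e2]; exact h
      · exact absurd ⟨a, b, rfl, rfl⟩ h
    · intro h
      exact ⟨hD.1 _ _ h, Or.inl ⟨a, b, rfl, rfl, h⟩⟩
  refine ⟨D', ⟨fun x y h => h.1, ?_⟩, ⟨φ, hφ, ?_⟩, hW⟩
  · intro x y hxy
    by_cases hb : bothW x y
    · obtain ⟨a, b, rfl, rfl⟩ := hb
      rw [hW, hW]
      exact hD.2 a b hxy
    · have hb' : ¬ bothW y x := fun h => hb (hbs _ _ h)
      have n1 : ∀ x y, ¬ bothW x y → (D' x y ↔
          ((GM M 2 t).Adj x y ∧ (ed x y ∨ ((¬ ed x y ∧ ¬ ed y x) ∧ r x < r y)))) := by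
        intro x y hn
        constructor
        · rintro ⟨h1, ⟨a, b, h2, h3, -⟩ | ⟨-, h⟩⟩
          · exact absurd ⟨a, b, h2, h3⟩ hn
          · exact ⟨h1, h⟩
        · rintro ⟨h1, h⟩
          exact ⟨h1, Or.inr ⟨hn, h⟩⟩
      rw [n1 x y hb, n1 y x hb']
      have hyx := hxy.symm
      by_cases e1 : ed x y
      · left
        refine ⟨⟨hxy, Or.inl e1⟩, ?_⟩
        rintro ⟨-, h | ⟨⟨-, h⟩, -⟩⟩
        · exact hed _ _ e1 h
        · exact h e1
      · by_cases e2 : ed y x
        · right
          refine ⟨⟨hyx, Or.inl e2⟩, ?_⟩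
          rintro ⟨-, h | ⟨⟨-, h⟩, -⟩⟩
          · exact e1 h
          · exact h e2
        · have hne : r x ≠ r y := fun h => hxy.ne (r.injective h)
          rcases lt_or_gt_of_ne hne with hlt | hlt
          · left
            refine ⟨⟨hxy, Or.inr ⟨⟨e1, e2⟩, hlt⟩⟩, ?_⟩
            rintro ⟨-, h | ⟨-, h⟩⟩
            · exact e2 h
            · exact absurd h (not_lt.2 hlt.le)
          · right
            refine ⟨⟨hyx, Or.inr ⟨⟨e2, e1⟩, hlt⟩⟩, ?_⟩
            rintro ⟨-, h | ⟨-, h⟩⟩
            · exact e1 h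
            · exact absurd h (not_lt.2 hlt.le)
  · intro a b hab
    refine ⟨hadj a b hab, ?_⟩
    by_cases hb : bothW (φ a) (φ b)
    · obtain ⟨x, y, hx, hy⟩ := hb
      exact Or.inl ⟨x, y, hx, hy, hcons a b x y hab hx hy⟩
    · exact Or.inr ⟨hb, Or.inl ⟨a, b, rfl, rfl, hab⟩⟩

/-- Placing `E0` by a 2-colouring with prescribed images of some vertices. -/
theorem place [Finite W] {M : SimpleGraph W} {D : W → W → Prop} (hD : IsOrientation M D)
    (col : Fin 11 → Bool) (sp : Fin 11 → Option W)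
    (inv : W → Fin 11) (hinv : ∀ a x, sp a = some x → inv x = a)
    (hcol : ∀ a x, sp a = some x → col a = true)
    (hmono : ∀ a b, E0 a b → col a = col b → ∃ x y, sp a = some x ∧ sp b = some y ∧ D x y) :
    ∃ D' : (W ⊕ Fin 11) ⊕ (Fin (2 - 1) × Fin 11) → (W ⊕ Fin 11) ⊕ (Fin (2 - 1) × Fin 11) → Prop,
      IsOrientation (GM M 2 11) D' ∧ Contains D' E0 ∧
        ∀ a b, D' (Sum.inl (Sum.inl a)) (Sum.inl (Sum.inl b)) ↔ D a b := by
  have hinj : ∀ a b x, sp a = some x → sp b = some x → a = b := fun a b x h1 h2 =>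
    (hinv a x h1).symm.trans (hinv b x h2)
  let φ : Fin 11 → (W ⊕ Fin 11) ⊕ (Fin (2 - 1) × Fin 11) := fun i =>
    match sp i with
    | some x => Sum.inl (Sum.inl x)
    | none => if col i then Sum.inl (Sum.inr i) else Sum.inr (⟨0, by norm_num⟩, i)
  have hs : ∀ i x, sp i = some x → φ i = Sum.inl (Sum.inl x) := by
    intro i x h
    simp only [φ, h]
  have hn1 : ∀ i, sp i = none → col i = true → φ i = Sum.inl (Sum.inr i) := by
    intro i h h1
    simp only [φ, h, h1, if_true]
  have hn2 : ∀ i, col i = false → φ i = Sum.inr (⟨0, by norm_num⟩, i) := by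
    intro i h1
    have h : sp i = none := by
      by_contra hne
      obtain ⟨x, hx⟩ := Option.ne_none_iff_exists'.1 hne
      rw [hcol i x hx] at h1
      exact Bool.noConfusion h1
    simp [φ, h, h1]
  have hleft : ∀ i, col i = true → ∃ u, φ i = Sum.inl u := by
    intro i h
    rcases hsp : sp i with _ | x
    · exact ⟨_, hn1 i hsp h⟩
    · exact ⟨_, hs i x hsp⟩
  apply extend hD φ
  · intro i j hij
    rcases hi : col i with _ | _ <;> rcases hj : col j with _ | _
    · rw [hn2 i hi, hn2 j hj] at hij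
      simpa using hij
    · obtain ⟨u, hu⟩ := hleft j hj
      rw [hn2 i hi, hu] at hij
      exact absurd hij (by simp)
    · obtain ⟨u, hu⟩ := hleft i hi
      rw [hn2 j hj, hu] at hij
      exact absurd hij (by simp)
    · rcases hsi : sp i with _ | x <;> rcases hsj : sp j with _ | y
      · rw [hn1 i hsi hi, hn1 j hsj hj] at hij
        simpa using hij
      · rw [hn1 i hsi hi, hs j y hsj] at hij
        exact absurd hij (by simp)
      · rw [hn1 j hsj hj, hs i x hsi] at hij
        exact absurd hij (by simp)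
      · rw [hs i x hsi, hs j y hsj] at hij
        have : x = y := by simpa using hij
        subst this
        exact hinj i j x hsi hsj
  · intro a b hab
    by_cases hc : col a = col b
    · obtain ⟨x, y, hx, hy, hxy⟩ := hmono a b hab hc
      rw [hs a x hx, hs b y hy]
      exact hD.1 _ _ hxy
    · rcases ha : col a with _ | _ <;> rcases hb : col b with _ | _
      · exact absurd (ha.trans hb.symm) hc
      · obtain ⟨u, hu⟩ := hleft b hb
        rw [hn2 a ha, hu]
        exact trivial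
      · obtain ⟨u, hu⟩ := hleft a ha
        rw [hn2 b hb, hu]
        rcases u with u | u <;> exact trivial
      · exact absurd (ha.trans hb.symm) hc
  · intro a b x y hab hax hby
    have ha : col a = true := by
      by_contra h
      rw [hn2 a (by simpa using h)] at hax
      exact absurd hax (by simp)
    have hb : col b = true := by
      by_contra h
      rw [hn2 b (by simpa using h)] at hby
      exact absurd hby (by simp)
    obtain ⟨x', y', hx, hy, hxy⟩ := hmono a b hab (ha.trans hb.symm)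
    rw [hs a x' hx] at hax
    rw [hs b y' hy] at hby
    have e1 : x' = x := by simpa using hax
    have e2 : y' = y := by simpa using hby
    rw [← e1, ← e2]
    exact hxy

/-- Any orientation of a graph with two distinct edges extends to an orientation of `G_M(11)` which
contains `E0`. -/
theorem main_fam [Finite W] {M : SimpleGraph W} {D : W → W → Prop} (hD : IsOrientation M D)
    {x y z w : W} (h1 : M.Adj x y) (h2 : M.Adj z w) (hne : s(x, y) ≠ s(z, w)) :
    ∃ D' : (W ⊕ Fin 11) ⊕ (Fin (2 - 1) × Fin 11) → (W ⊕ Fin 11) ⊕ (Fin (2 - 1) × Fin 11) → Prop,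
      IsOrientation (GM M 2 11) D' ∧ Contains D' E0 ∧
        ∀ a b, D' (Sum.inl (Sum.inl a)) (Sum.inl (Sum.inl b)) ↔ D a b := by
  classical
  wlog hxy : D x y generalizing x y
  · have hyx : D y x := by
      rcases hD.2 x y h1 with h | h
      · exact absurd h.1 hxy
      · exact h.1
    exact this h1.symm (by rwa [Sym2.eq_swap]) hyx
  wlog hzw : D z w generalizing z w
  · have hwz : D w z := by
      rcases hD.2 z w h2 with h | h
      · exact absurd h.1 hzw
      · exact h.1
    exact this h2.symm (by rwa [Sym2.eq_swap (a := w)]) hwz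
  have hasym : ∀ a b, D a b → ¬ D b a := by
    intro a b hab hba
    rcases hD.2 a b (hD.1 _ _ hab) with h | h
    · exact h.2 hba
    · exact h.2 hab
  have hxy' : x ≠ y := h1.ne
  have hzw' : z ≠ w := h2.ne
  -- the placements
  have path : ∀ a b c, D a b → D b c → a ≠ c →
      ∃ D' : (W ⊕ Fin 11) ⊕ (Fin (2 - 1) × Fin 11) → (W ⊕ Fin 11) ⊕ (Fin (2 - 1) × Fin 11) → Prop,
      IsOrientation (GM M 2 11) D' ∧ Contains D' E0 ∧
        ∀ a b, D' (Sum.inl (Sum.inl a)) (Sum.inl (Sum.inl b)) ↔ D a b := by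
    intro a b c hab hbc hac
    have hab' : a ≠ b := (hD.1 _ _ hab).ne
    have hbc' : b ≠ c := (hD.1 _ _ hbc).ne
    apply place hD ![true, true, false, false, true, false, true, false, true, false, false]
      ![some b, some c, none, none, some a, none, none, none, none, none, none]
      (fun u => if u = b then 0 else if u = c then 1 else 4)
    · intro i u hi
      fin_cases i <;> simp at hi <;> subst hi <;> simp [hab', hac, hbc'.symm]
    · intro i u hi
      fin_cases i <;> simp at hi <;> rfl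
    · refine E0_cases ?_ ?_ ?_ ?_ ?_ ?_ ?_ ?_ ?_ ?_ ?_ ?_ ?_ ?_ ?_ <;> intro hc <;> first
        | exact absurd hc (by decide)
        | exact ⟨_, _, rfl, rfl, hab⟩
        | exact ⟨_, _, rfl, rfl, hbc⟩
  by_cases exz : x = z
  · subst exz
    have hyw : y ≠ w := fun h => hne (by rw [h])
    apply place hD ![true, false, true, true, false, true, false, true, false, true, true]
      ![some x, none, some y, some w, none, none, none, none, none, none, none]
      (fun u => if u = x then 0 else if u = y then 2 else 3)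
    · intro i u hi
      fin_cases i <;> simp at hi <;> subst hi <;> simp [hxy'.symm, hzw'.symm, Ne.symm hyw]
    · intro i u hi
      fin_cases i <;> simp at hi <;> rfl
    · refine E0_cases ?_ ?_ ?_ ?_ ?_ ?_ ?_ ?_ ?_ ?_ ?_ ?_ ?_ ?_ ?_ <;> intro hc <;> first
        | exact absurd hc (by decide)
        | exact ⟨_, _, rfl, rfl, hxy⟩
        | exact ⟨_, _, rfl, rfl, hzw⟩
  by_cases eyw : y = w
  · subst eyw
    apply place hD ![false, true, true, true, true, false, true, false, true, false, false]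
      ![none, some y, some x, some z, none, none, none, none, none, none, none]
      (fun u => if u = y then 1 else if u = x then 2 else 3)
    · intro i u hi
      fin_cases i <;> simp at hi <;> subst hi <;> simp [hxy', hzw', Ne.symm exz]
    · intro i u hi
      fin_cases i <;> simp at hi <;> rfl
    · refine E0_cases ?_ ?_ ?_ ?_ ?_ ?_ ?_ ?_ ?_ ?_ ?_ ?_ ?_ ?_ ?_ <;> intro hc <;> first
        | exact absurd hc (by decide)
        | exact ⟨_, _, rfl, rfl, hxy⟩
        | exact ⟨_, _, rfl, rfl, hzw⟩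
  by_cases eyz : y = z
  · subst eyz
    exact path x y w hxy hzw (fun h => by subst h; exact hasym _ _ hxy hzw)
  by_cases exw : x = w
  · subst exw
    exact path z x y hzw hxy (fun h => by subst h; exact hasym _ _ hxy hzw)
  apply place hD ![true, true, false, false, false, true, false, true, true, false, false]
    ![some x, some y, none, none, none, some z, none, none, some w, none, none]
    (fun u => if u = x then 0 else if u = y then 1 else if u = z then 5 else 8)
  · intro i u hi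
    fin_cases i <;> simp at hi <;> subst hi <;>
      simp [hxy'.symm, hzw'.symm, Ne.symm exz, Ne.symm eyz, Ne.symm exw, Ne.symm eyw]
  · intro i u hi
    fin_cases i <;> simp at hi <;> rfl
  · refine E0_cases ?_ ?_ ?_ ?_ ?_ ?_ ?_ ?_ ?_ ?_ ?_ ?_ ?_ ?_ ?_ <;> intro hc <;> first
      | exact absurd hc (by decide)
      | exact ⟨_, _, rfl, rfl, hxy⟩
      | exact ⟨_, _, rfl, rfl, hzw⟩

/-- `𝓜(E0) = vec(𝓜(H0))`. -/
theorem fam_eq [Finite W] (D : W → W → Prop) : InMvec H0 E0 2 D ↔ InVecM H0 2 D := by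
  constructor
  · rintro ⟨M, h1, h2, -⟩
    exact ⟨M, h1, h2⟩
  · rintro ⟨M, h1, h2⟩
    obtain ⟨⟨t, -, ht⟩, -⟩ := id h1
    obtain ⟨x, y, z, w, hxy, hzw, hne⟩ := two_edges ht
    obtain ⟨D', hD', hc, hr⟩ := main_fam h2 hxy hzw hne
    exact ⟨M, h1, h2, 11, by norm_num, D', hD', hc, Equiv.refl W, fun a b => hr a b⟩

end Pool.Agent.Helper10K9.DF
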