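import Pool.Agent.Helper10K9.DF.Defs

/-!
# MP_d8cc50_co: the oriented graph `E0` on 11 vertices and its 2-colourings
-/

set_option autoImplicit false

namespace Pool.Agent.Helper10K9.DF

open SimpleGraph

/-- The arcs of the oriented graph. The vertices are
`p = 0, q = 1, r = 2, s = 3, v₁ = 4, u₂ = 5, g = 6, g' = 7, v₂ = 8, k₁ = 9, k₂ = 10`. -/
def arcs : List (Fin 11 × Fin 11) :=
  [(0, 2), (0, 3), (0, 1), (2, 1), (3, 1), (4, 0), (4, 5), (5, 6), (6, 7), (7, 4), (5, 8), (8, 9),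
    (9, 1), (8, 10), (10, 1)]

/-- The oriented graph. -/
def E0 (a b : Fin 11) : Prop := (a, b) ∈ arcs

instance : DecidableRel E0 := fun a b => inferInstanceAs (Decidable ((a, b) ∈ arcs))

/-- The underlying graph: 11 vertices and 15 edges. -/
def H0 : SimpleGraph (Fin 11) where
  Adj a b := E0 a b ∨ E0 b a
  symm := ⟨fun a b h => h.symm⟩
  loopless := ⟨by decide⟩

instance : DecidableRel H0.Adj := fun a b => inferInstanceAs (Decidable (E0 a b ∨ E0 b a))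

theorem E0_asymm : ∀ a b, E0 a b → ¬ E0 b a := by decide

theorem E0_orientation : IsOrientation H0 E0 := by
  refine ⟨fun u v h => Or.inl h, fun u v h => ?_⟩
  rcases h with h | h
  · exact Or.inl ⟨h, E0_asymm _ _ h⟩
  · exact Or.inr ⟨h, E0_asymm _ _ h⟩

/-- Case analysis over the 15 arcs. -/
theorem E0_cases {P : Fin 11 → Fin 11 → Prop} (h1 : P 0 2) (h2 : P 0 3) (h3 : P 0 1) (h4 : P 2 1)
    (h5 : P 3 1) (h6 : P 4 0) (h7 : P 4 5) (h8 : P 5 6) (h9 : P 6 7) (h10 : P 7 4) (h11 : P 5 8)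
    (h12 : P 8 9) (h13 : P 9 1) (h14 : P 8 10) (h15 : P 10 1) : ∀ a b, E0 a b → P a b := by
  intro a b h
  have h : (a, b) ∈ arcs := h
  simp only [arcs, List.mem_cons, Prod.mk.injEq, List.not_mem_nil, or_false] at h
  rcases h with ⟨rfl, rfl⟩ | ⟨rfl, rfl⟩ | ⟨rfl, rfl⟩ | ⟨rfl, rfl⟩ | ⟨rfl, rfl⟩ | ⟨rfl, rfl⟩ |
    ⟨rfl, rfl⟩ | ⟨rfl, rfl⟩ | ⟨rfl, rfl⟩ | ⟨rfl, rfl⟩ | ⟨rfl, rfl⟩ | ⟨rfl, rfl⟩ | ⟨rfl, rfl⟩ |
    ⟨rfl, rfl⟩ | ⟨rfl, rfl⟩ <;> assumption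

/-- Boolean check of `col_two`. -/
def chk2 (c : Fin 11 → Bool) : Bool :=
  arcs.any fun e => arcs.any fun e' => decide (c e.1 = c e.2 ∧ c e'.1 = c e'.2 ∧ e ≠ e')

/-- Boolean check of `col_main`. -/
def chk3 (c : Fin 11 → Bool) : Bool :=
  (arcs.any fun e => (c e.1 == c e.2) && arcs.any fun e' =>
      decide (c e'.1 = c e'.2 ∧ c e.1 = c e'.1 ∧ e ≠ e')) ||
    decide ((c 0 = c 2 ∧ c 1 = c 3 ∧ c 0 ≠ c 1) ∨ (c 0 = c 3 ∧ c 1 = c 2 ∧ c 0 ≠ c 1))

theorem chk3_all : ∀ b0 b1 b2 b3 b4 b5 b6 b7 b8 b9 b10 : Bool,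
    chk3 ![b0, b1, b2, b3, b4, b5, b6, b7, b8, b9, b10] = true := by
  decide +kernel

theorem vec_eq (c : Fin 11 → Bool) :
    c = ![c 0, c 1, c 2, c 3, c 4, c 5, c 6, c 7, c 8, c 9, c 10] := by
  funext i
  fin_cases i <;> rfl

/-- Every 2-colouring has two distinct monochromatic arcs of the same colour, or `p, r | q, s` or
`p, s | q, r` are the monochromatic pairs. -/
theorem col_main (c : Fin 11 → Bool) :
    (∃ a b a' b', E0 a b ∧ E0 a' b' ∧ c a = c b ∧ c a' = c b' ∧ c a = c a' ∧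
      (a, b) ≠ (a', b')) ∨
    (c 0 = c 2 ∧ c 1 = c 3 ∧ c 0 ≠ c 1) ∨ (c 0 = c 3 ∧ c 1 = c 2 ∧ c 0 ≠ c 1) := by
  have h : chk3 c = true := by
    rw [vec_eq c]
    exact chk3_all _ _ _ _ _ _ _ _ _ _ _
  unfold chk3 at h
  rw [Bool.or_eq_true] at h
  rcases h with h | h
  · left
    rw [List.any_eq_true] at h
    obtain ⟨⟨a, b⟩, he, h⟩ := h
    rw [Bool.and_eq_true, List.any_eq_true] at h
    obtain ⟨h1, ⟨a', b'⟩, he', h2⟩ := h
    have h2 := of_decide_eq_true h2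
    exact ⟨a, b, a', b', he, he', by simpa using h1, h2.1, h2.2.1, h2.2.2⟩
  · right
    exact of_decide_eq_true h

/-- Every 2-colouring has two distinct monochromatic arcs. -/
theorem col_two (c : Fin 11 → Bool) :
    ∃ a b a' b', E0 a b ∧ E0 a' b' ∧ c a = c b ∧ c a' = c b' ∧ (a, b) ≠ (a', b') := by
  rcases col_main c with ⟨a, b, a', b', h1, h2, h3, h4, -, h5⟩ | ⟨h1, h2, -⟩ | ⟨h1, h2, -⟩
  · exact ⟨a, b, a', b', h1, h2, h3, h4, h5⟩
  · exact ⟨0, 2, 3, 1, by decide, by decide, h1, h2.symm, by decide⟩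
  · exact ⟨0, 3, 2, 1, by decide, by decide, h1, h2.symm, by decide⟩

theorem H0_chrom : H0.chromaticNumber = ((2 + 1 : ℕ) : ℕ∞) := by
  apply le_antisymm
  · apply SimpleGraph.Colorable.chromaticNumber_le
    refine ⟨SimpleGraph.Coloring.mk
      (fun a : Fin 11 => (![0, 1, 2, 2, 1, 0, 1, 0, 1, 0, 0] : Fin 11 → Fin 3) a) ?_⟩
    decide
  · by_contra hlt
    rw [not_le] at hlt
    have h2 : H0.chromaticNumber ≤ ((2 : ℕ) : ℕ∞) := by
      have : H0.chromaticNumber < ((2 : ℕ) : ℕ∞) + 1 := by exact_mod_cast hlt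
      exact Order.le_of_lt_add_one this
    rw [SimpleGraph.chromaticNumber_le_iff_colorable] at h2
    obtain ⟨C⟩ := h2
    obtain ⟨a, b, -, -, h1, -, h3, -⟩ := col_two (fun i => decide (C i = 0))
    have hab : H0.Adj a b := Or.inl h1
    have hne := C.valid hab
    have : ∀ x y : Fin 2, decide (x = 0) = decide (y = 0) → x = y := by decide
    exact hne (this _ _ h3)

end Pool.Agent.Helper10K9.DF
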